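import Pool.Agent.Q206.Mu.Defs

/-!
# Nested fixpoints on parity arenas
-/

namespace Q206.Mu

open Set

section fix

variable {α β : Type}

def Lf (f : Set α → Set α) : Set α := ⋂₀ {S | f S ⊆ S}
def Gf (f : Set α → Set α) : Set α := ⋃₀ {S | S ⊆ f S}

theorem Lf_le {f : Set α → Set α} {S : Set α} (h : f S ⊆ S) : Lf f ⊆ S :=
  sInter_subset_of_mem h

theorem le_Gf {f : Set α → Set α} {S : Set α} (h : S ⊆ f S) : S ⊆ Gf f :=
  subset_sUnion_of_mem h

theorem Lf_pre {f : Set α → Set α} (hf : Monotone f) : f (Lf f) ⊆ Lf f :=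
  subset_sInter fun _ hS => (hf (Lf_le hS)).trans hS

theorem Gf_post {f : Set α → Set α} (hf : Monotone f) : Gf f ⊆ f (Gf f) :=
  sUnion_subset fun _ hS => Subset.trans hS (hf (le_Gf hS))

theorem Lf_fix {f : Set α → Set α} (hf : Monotone f) : f (Lf f) = Lf f :=
  (Lf_pre hf).antisymm (Lf_le (hf (Lf_pre hf)))

theorem Gf_fix {f : Set α → Set α} (hf : Monotone f) : f (Gf f) = Gf f :=
  (le_Gf (hf (Gf_post hf))).antisymm (Gf_post hf)

def Fx (b : Bool) (f : Set α → Set α) : Set α := if b then Lf f else Gf f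

theorem Fx_fix {b : Bool} {f : Set α → Set α} (hf : Monotone f) : f (Fx b f) = Fx b f := by
  cases b
  · exact Gf_fix hf
  · exact Lf_fix hf

theorem Fx_mono {b : Bool} {f g : Set α → Set α} (h : ∀ S, f S ⊆ g S) : Fx b f ⊆ Fx b g := by
  cases b
  · exact sUnion_subset fun S hS => le_Gf (Subset.trans hS (h S))
  · exact subset_sInter fun S hS => Lf_le ((h S).trans hS)

theorem Fx_const (b : Bool) (S : Set α) : Fx b (fun _ => S) = S :=
  (Fx_fix (f := fun _ => S) (fun _ _ _ => le_rfl)).symm

theorem hom_Lf (f : α → β) {F : Set β → Set β} {G : Set α → Set α} (hF : Monotone F)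
    (hG : Monotone G) (h : ∀ Y, f ⁻¹' (F Y) = G (f ⁻¹' Y)) : f ⁻¹' (Lf F) = Lf G := by
  apply Subset.antisymm
  · have h1 : Lf F ⊆ {p | ∀ t, f t = p → t ∈ Lf G} := by
      apply Lf_le
      intro p hp t ht
      have h2 : t ∈ f ⁻¹' (F {p | ∀ t, f t = p → t ∈ Lf G}) := by
        rw [mem_preimage, ht]; exact hp
      rw [h] at h2
      have h3 : f ⁻¹' {p | ∀ t, f t = p → t ∈ Lf G} ⊆ Lf G := fun t ht => ht t rfl
      have h4 := hG h3 h2
      rwa [Lf_fix hG] at h4
    intro t ht
    exact h1 ht t rfl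
  · apply Lf_le
    rw [← h, Lf_fix hF]

theorem hom_Gf (f : α → β) {F : Set β → Set β} {G : Set α → Set α} (hF : Monotone F)
    (hG : Monotone G) (h : ∀ Y, f ⁻¹' (F Y) = G (f ⁻¹' Y)) : f ⁻¹' (Gf F) = Gf G := by
  apply Subset.antisymm
  · apply le_Gf
    rw [← h, Gf_fix hF]
  · have h1 : f '' (Gf G) ⊆ Gf F := by
      apply le_Gf
      rintro _ ⟨t, ht, rfl⟩
      have h2 : t ∈ G (f ⁻¹' (f '' Gf G)) := by
        apply hG (subset_preimage_image f _)
        rw [Gf_fix hG]; exact ht
      rw [← h] at h2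
      exact h2
    exact fun t ht => h1 ⟨t, ht, rfl⟩

theorem hom_Fx (b : Bool) (f : α → β) {F : Set β → Set β} {G : Set α → Set α} (hF : Monotone F)
    (hG : Monotone G) (h : ∀ Y, f ⁻¹' (F Y) = G (f ⁻¹' Y)) : f ⁻¹' (Fx b F) = Fx b G := by
  cases b
  · exact hom_Gf f hF hG h
  · exact hom_Lf f hF hG h

end fix

/-- Labels of arena positions: a terminal position with a truth value, or a position of player
`o` with priority `c`. -/
inductive Lab : Type
  | term (p : Prop) : Lab
  | node (o : Bool) (c : ℕ) : Lab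

def Lab.sat {P : Type} (s : Bool → P) (X : ℕ → Set P) : Lab → Prop
  | .term p => p
  | .node true c => ∃ b, s b ∈ X c
  | .node false c => ∀ b, s b ∈ X c

structure Arena (P : Type) where
  lab : P → Lab
  s : P → Bool → P

namespace Arena

variable {P P' : Type}

def Phi (A : Arena P) (X : ℕ → Set P) : Set P := {v | (A.lab v).sat (A.s v) X}

theorem _root_.Q206.Mu.Lab.sat_mono {s : Bool → P} {X Y : ℕ → Set P} (h : ∀ c, X c ⊆ Y c)
    {a : Lab} (ha : a.sat s X) : a.sat s Y := by
  match a, ha with
  | .term p, ha => exact ha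
  | .node true c, ⟨b, hb⟩ => exact ⟨b, h c hb⟩
  | .node false c, ha => exact fun b => h c (ha b)

theorem Phi_mono (A : Arena P) {X Y : ℕ → Set P} (h : ∀ c, X c ⊆ Y c) : A.Phi X ⊆ A.Phi Y :=
  fun _ hv => Lab.sat_mono h hv

/-- The nested fixpoint with levels `1, …, k`; level `j` is a least fixpoint iff `l j`. -/
def N (A : Arena P) (l : ℕ → Bool) : ℕ → (ℕ → Set P) → Set P
  | 0, X => A.Phi X
  | k + 1, X => Fx (l (k + 1)) (fun Y => A.N l k (Function.update X (k + 1) Y))

theorem upd_mono {X Y : ℕ → Set P} (h : ∀ c, X c ⊆ Y c) (k : ℕ) {S T : Set P} (hST : S ⊆ T)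
    (c : ℕ) : Function.update X k S c ⊆ Function.update Y k T c := by
  by_cases hc : c = k
  · subst hc; simpa using hST
  · simpa [hc] using h c

theorem N_mono (A : Arena P) (l : ℕ → Bool) (k : ℕ) : ∀ {X Y : ℕ → Set P},
    (∀ c, X c ⊆ Y c) → A.N l k X ⊆ A.N l k Y := by
  induction k with
  | zero => exact fun h => A.Phi_mono h
  | succ k ih => exact fun h => Fx_mono fun S => ih (upd_mono h _ le_rfl)

theorem N_mono' (A : Arena P) (l : ℕ → Bool) (k : ℕ) (X : ℕ → Set P) :
    Monotone (fun Y => A.N l k (Function.update X (k + 1) Y)) :=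
  fun _ _ h => A.N_mono l k (upd_mono (fun _ => le_rfl) _ h)

theorem N_succ (A : Arena P) (l : ℕ → Bool) (k : ℕ) (X : ℕ → Set P) :
    A.N l k (Function.update X (k + 1) (A.N l (k + 1) X)) = A.N l (k + 1) X :=
  Fx_fix (A.N_mono' l k X)

/-- `X` with the entries `1, …, k` replaced by `Z`. -/
def upd (X : ℕ → Set P) (k : ℕ) (Z : Set P) (c : ℕ) : Set P :=
  if 1 ≤ c ∧ c ≤ k then Z else X c

theorem N_fix (A : Arena P) (l : ℕ → Bool) (k : ℕ) : ∀ X : ℕ → Set P,
    A.Phi (upd X k (A.N l k X)) = A.N l k X := by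
  induction k with
  | zero =>
    intro X
    have : upd X 0 (A.N l 0 X) = X := by
      funext c
      have : ¬ (1 ≤ c ∧ c ≤ 0) := by omega
      unfold upd
      rw [if_neg this]
    rw [this]; rfl
  | succ k ih =>
    intro X
    have h := ih (Function.update X (k + 1) (A.N l (k + 1) X))
    rw [N_succ] at h
    rw [← h]
    congr 1
    rw [h]
    funext c
    unfold upd
    by_cases h1 : 1 ≤ c ∧ c ≤ k
    · rw [if_pos h1, if_pos ⟨h1.1, by omega⟩]
    · rw [if_neg h1]
      by_cases h2 : c = k + 1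
      · subst h2
        rw [if_pos ⟨by omega, le_rfl⟩]; simp
      · rw [if_neg (by omega)]; simp [h2]

/-- Strict morphism of arenas. -/
theorem N_hom (A : Arena P) (A' : Arena P') (f : P → P') (hlab : ∀ v, A'.lab (f v) = A.lab v)
    (hs : ∀ v o c, A.lab v = .node o c → ∀ b, A'.s (f v) b = f (A.s v b)) (l : ℕ → Bool)
    (k : ℕ) : ∀ X : ℕ → Set P', f ⁻¹' (A'.N l k X) = A.N l k (fun c => f ⁻¹' (X c)) := by
  induction k with
  | zero =>
    intro X
    ext v
    change (A'.lab (f v)).sat (A'.s (f v)) X ↔ (A.lab v).sat (A.s v) _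
    rw [hlab]
    rcases h : A.lab v with p | ⟨o, c⟩
    · exact Iff.rfl
    · have h' := hs v o c h
      cases o
      · simp only [Lab.sat, h', mem_preimage]
      · simp only [Lab.sat, h', mem_preimage]
  | succ k ih =>
    intro X
    refine hom_Fx _ f (A'.N_mono' l k X) (A.N_mono' l k _) fun Y => ?_
    rw [ih]
    congr 1
    funext c
    by_cases hc : c = k + 1
    · subst hc; simp
    · simp [hc]

/-- All priorities lie between `1` and `n`. -/
def Bd (A : Arena P) (n : ℕ) : Prop := ∀ v o c, A.lab v = .node o c → 1 ≤ c ∧ c ≤ n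

theorem Phi_congr (A : Arena P) {n : ℕ} (h : A.Bd n) {X Y : ℕ → Set P}
    (hXY : ∀ c, 1 ≤ c → c ≤ n → X c = Y c) : A.Phi X = A.Phi Y := by
  ext v
  change (A.lab v).sat _ _ ↔ (A.lab v).sat _ _
  rcases hv : A.lab v with p | ⟨o, c⟩
  · exact Iff.rfl
  · have := h v o c hv
    cases o <;> simp only [Lab.sat, hXY c this.1 this.2]

theorem N_congr (A : Arena P) {n : ℕ} (h : A.Bd n) (l : ℕ → Bool) (k : ℕ) :
    ∀ {X Y : ℕ → Set P}, (∀ c, k < c → c ≤ n → X c = Y c) → A.N l k X = A.N l k Y := by
  induction k with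
  | zero => exact fun hXY => A.Phi_congr h fun c h1 h2 => hXY c (by omega) h2
  | succ k ih =>
    intro X Y hXY
    change Fx _ _ = Fx _ _
    congr 1
    funext S
    apply ih
    intro c h1 h2
    by_cases hc : c = k + 1
    · subst hc; simp
    · simp only [Function.update_of_ne hc]; exact hXY c (by omega) h2

theorem N_indep (A : Arena P) {n : ℕ} (h : A.Bd n) (l : ℕ → Bool) (X Y : ℕ → Set P) :
    A.N l n X = A.N l n Y := A.N_congr h l n fun c h1 h2 => by omega

theorem N_up (A : Arena P) {n : ℕ} (h : A.Bd n) (l : ℕ → Bool) {m : ℕ} (hm : n ≤ m)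
    (X : ℕ → Set P) : A.N l m X = A.N l n X := by
  induction m, hm using Nat.le_induction generalizing X with
  | base => rfl
  | succ m hm ih =>
    change Fx _ _ = _
    have : (fun Y => A.N l m (Function.update X (m + 1) Y)) = fun _ => A.N l n X := by
      funext Y
      rw [ih]
      exact A.N_indep h l _ _
    rw [this, Fx_const]

/-- the value of an arena all of whose priorities lie between `1` and `n` -/
def val (A : Arena P) (l : ℕ → Bool) (n : ℕ) : Set P := A.N l n (fun _ => ∅)

theorem val_fix (A : Arena P) {n : ℕ} (h : A.Bd n) (l : ℕ → Bool) :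
    A.Phi (fun _ => A.val l n) = A.val l n := by
  refine Eq.trans ?_ (A.N_fix l n (fun _ => ∅))
  apply A.Phi_congr h
  intro c h1 h2
  unfold upd
  rw [if_pos ⟨h1, h2⟩]
  rfl

theorem val_N (A : Arena P) {n : ℕ} (h : A.Bd n) (l : ℕ → Bool) {k : ℕ} (hk : k ≤ n) :
    A.N l k (fun _ => A.val l n) = A.val l n := by
  induction hk using Nat.decreasingInduction with
  | self => exact A.N_indep h l _ _
  | of_succ k hk ih =>
    have := A.N_succ l k (fun _ => A.val l n)
    rw [ih] at this
    simpa using this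

/-- Replacing some positions by terminal positions with their true value does not change the
value. -/
theorem repl (A A' : Arena P) (D : Set P) {n : ℕ} (h : A.Bd n) (h' : A'.Bd n) (l : ℕ → Bool)
    (hoff : ∀ v ∉ D, A'.lab v = A.lab v ∧ A'.s v = A.s v)
    (hon : ∀ v ∈ D, A'.lab v = .term (v ∈ A.val l n)) : A'.val l n = A.val l n := by
  set W := A.val l n with hW
  have hPhi : ∀ X, A'.Phi X = (A.Phi X \ D) ∪ (D ∩ W) := by
    intro X
    ext v
    by_cases hv : v ∈ D
    · change (A'.lab v).sat _ _ ↔ _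
      rw [hon v hv]
      simp [hv, Lab.sat]
    · change (A'.lab v).sat _ _ ↔ _
      rw [(hoff v hv).1, (hoff v hv).2]
      simp only [mem_union, mem_sdiff, hv, not_false_iff, and_true, mem_inter_iff, false_and,
        or_false]
      exact Iff.rfl
  have hfix : A.Phi (fun _ => W) = W := A.val_fix h l
  have key : ∀ k, k ≤ n →
      (∀ X : ℕ → Set P, (∀ c, X c ⊆ W) → A.N l k X ⊆ A'.N l k X ∧ A'.N l k X ⊆ W) ∧
      (∀ X : ℕ → Set P, (∀ c, W ⊆ X c) → A'.N l k X ⊆ A.N l k X ∧ W ⊆ A'.N l k X) := by
    intro k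
    induction k with
    | zero =>
      intro _
      constructor
      · intro X hX
        have h1 : A.Phi X ⊆ W := by
          rw [← hfix]; exact A.Phi_mono hX
        refine ⟨fun v hv => ?_, fun v hv => ?_⟩
        · change v ∈ A'.Phi X
          rw [hPhi]
          by_cases hD : v ∈ D
          · exact Or.inr ⟨hD, h1 hv⟩
          · exact Or.inl ⟨hv, hD⟩
        · change v ∈ A'.Phi X at hv
          rw [hPhi] at hv
          rcases hv with hv | hv
          · exact h1 hv.1
          · exact hv.2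
      · intro X hX
        have h1 : W ⊆ A.Phi X := by
          rw [← hfix]; exact A.Phi_mono hX
        refine ⟨fun v hv => ?_, fun v hv => ?_⟩
        · change v ∈ A'.Phi X at hv
          rw [hPhi] at hv
          rcases hv with hv | hv
          · exact hv.1
          · exact h1 hv.2
        · change v ∈ A'.Phi X
          rw [hPhi]
          by_cases hD : v ∈ D
          · exact Or.inr ⟨hD, hv⟩
          · exact Or.inl ⟨h1 hv, hD⟩
    | succ k ih =>
      intro hk
      obtain ⟨iha, ihb⟩ := ih (by omega)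
      have hN : A.N l (k + 1) (fun _ => W) = W := A.val_N h l hk
      have up : ∀ {X : ℕ → Set P} {Y : Set P}, (∀ c, X c ⊆ W) → Y ⊆ W →
          ∀ c, Function.update X (k + 1) Y c ⊆ W := by
        intro X Y h1 h2 c
        by_cases hc : c = k + 1
        · subst hc; simpa using h2
        · simpa [hc] using h1 c
      have dn : ∀ {X : ℕ → Set P} {Y : Set P}, (∀ c, W ⊆ X c) → W ⊆ Y →
          ∀ c, W ⊆ Function.update X (k + 1) Y c := by
        intro X Y h1 h2 c
        by_cases hc : c = k + 1
        · subst hc; simpa using h2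
        · simpa [hc] using h1 c
      rcases hl : l (k + 1) with _ | _
      · -- greatest fixpoint
        have e : ∀ (B : Arena P) X, B.N l (k + 1) X =
            Gf (fun Y => B.N l k (Function.update X (k + 1) Y)) := by
          intro B X; change Fx _ _ = _; rw [hl]; rfl
        have hb : ∀ X : ℕ → Set P, (∀ c, W ⊆ X c) →
            A'.N l (k + 1) X ⊆ A.N l (k + 1) X ∧ W ⊆ A'.N l (k + 1) X := by
          intro X hX
          have h2 : W ⊆ A'.N l (k + 1) X := by
            rw [e]
            apply le_Gf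
            exact (ihb _ (dn hX le_rfl)).2
          refine ⟨?_, h2⟩
          rw [e A]
          apply le_Gf
          conv_lhs => rw [← N_succ]
          exact (ihb _ (dn hX h2)).1
        refine ⟨fun X hX => ⟨?_, ?_⟩, hb⟩
        · have h3 : A.N l (k + 1) X ⊆ W := by
            rw [← hN]; exact A.N_mono l _ hX
          rw [e A']
          apply le_Gf
          conv_lhs => rw [← N_succ]
          exact (iha _ (up hX h3)).1
        · refine (A'.N_mono l (k + 1) hX).trans ?_
          refine (hb (fun _ => W) fun _ => le_rfl).1.trans ?_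
          rw [hN]
      · have e : ∀ (B : Arena P) X, B.N l (k + 1) X =
            Lf (fun Y => B.N l k (Function.update X (k + 1) Y)) := by
          intro B X; change Fx _ _ = _; rw [hl]; rfl
        have ha : ∀ X : ℕ → Set P, (∀ c, X c ⊆ W) →
            A.N l (k + 1) X ⊆ A'.N l (k + 1) X ∧ A'.N l (k + 1) X ⊆ W := by
          intro X hX
          have h2 : A'.N l (k + 1) X ⊆ W := by
            rw [e]
            apply Lf_le
            exact (iha _ (up hX le_rfl)).2
          refine ⟨?_, h2⟩
          rw [e A]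
          apply Lf_le
          conv_rhs => rw [← N_succ]
          exact (iha _ (up hX h2)).1
        refine ⟨ha, fun X hX => ⟨?_, ?_⟩⟩
        · have h3 : W ⊆ A.N l (k + 1) X := by
            conv_lhs => rw [← hN]
            exact A.N_mono l _ hX
          rw [e A']
          apply Lf_le
          conv_rhs => rw [← N_succ]
          exact (ihb _ (dn hX h3)).1
        · refine Subset.trans ?_ (A'.N_mono l (k + 1) hX)
          refine Subset.trans ?_ (ha (fun _ => W) fun _ => le_rfl).1
          rw [hN]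
  have h1 := (key n le_rfl).1 (fun _ => W) fun _ => le_rfl
  have h2 := (key n le_rfl).2 (fun _ => W) fun _ => le_rfl
  have h3 : A'.N l n (fun _ => W) = W := h1.2.antisymm h2.2
  rw [← h3]
  exact A'.N_indep h' l _ _

end Arena

end Q206.Mu
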