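import Pool.Agent.Q206.Mu.Arena

/-!
# Alternating tree automata with variables, and their closure properties
-/

namespace Q206.Mu

open Set

abbrev T : Type := List Bool

inductive Kind (Q : Type) : Type
  | con (b : Bool) : Kind Q
  | lit (a : ℕ) (pos : Bool) : Kind Q
  | var (x : ℕ) : Kind Q
  | node (o : Bool) (c : ℕ) (m : Bool) (nx : Bool → Q) : Kind Q

namespace Kind

variable {Q Q' : Type}

def lab (vl ρ : ℕ → Set T) (u : T) : Kind Q → Lab
  | .con b => .term (b = true)
  | .lit a pos => .term (u ∈ vl a ↔ pos = true)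
  | .var x => .term (u ∈ ρ x)
  | .node o c _ _ => .node o c

def step (u : T) (q : Q) (b : Bool) : Kind Q → T × Q
  | .node _ _ m nx => (if m then b :: u else u, nx b)
  | _ => (u, q)

/-- rename the states and replace the variables -/
def redir (g : ℕ → Kind Q') (f : Q → Q') : Kind Q → Kind Q'
  | .con b => .con b
  | .lit a pos => .lit a pos
  | .var x => g x
  | .node o c m nx => .node o c m (fun b => f (nx b))

end Kind

structure Aut (Q : Type) where
  st : Q
  k : Q → Kind Q

/-- odd levels are least fixpoints -/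
def lE (k : ℕ) : Bool := decide (k % 2 = 1)

namespace Aut

variable {Q : Type} {Q' : ℕ → Type}

def arena (A : Aut Q) (vl ρ : ℕ → Set T) : Arena (T × Q) where
  lab p := (A.k p.2).lab vl ρ p.1
  s p b := (A.k p.2).step p.1 p.2 b

def Bd (A : Aut Q) (n : ℕ) : Prop := ∀ q o c m nx, A.k q = .node o c m nx → 1 ≤ c ∧ c ≤ n

theorem bd_arena {A : Aut Q} {n : ℕ} (h : A.Bd n) (vl ρ : ℕ → Set T) : (A.arena vl ρ).Bd n := by
  rintro ⟨u, q⟩ o c hv
  change (A.k q).lab vl ρ u = _ at hv
  rcases hq : A.k q with b | ⟨a, pos⟩ | x | ⟨o', c', m, nx⟩ <;> rw [hq] at hv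
  · cases hv
  · cases hv
  · cases hv
  · cases hv
    exact h q o c m nx hq

/-- the set of nodes accepted from the start state -/
def F (A : Aut Q) (n : ℕ) (vl ρ : ℕ → Set T) : Set T :=
  {u | (u, A.st) ∈ (A.arena vl ρ).val lE n}

theorem mem_val {A : Aut Q} {n : ℕ} (h : A.Bd n) (vl ρ : ℕ → Set T) (p : T × Q) :
    p ∈ (A.arena vl ρ).val lE n ↔
      ((A.arena vl ρ).lab p).sat ((A.arena vl ρ).s p) (fun _ => (A.arena vl ρ).val lE n) := by
  conv_lhs => rw [← (A.arena vl ρ).val_fix (bd_arena h vl ρ) lE]
  exact Iff.rfl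

/-- General transfer: a map of states which keeps all kinds except variables, whose labels are
prescribed. -/
theorem hom {A : Aut Q} {P : Type} (C : Arena (T × P)) (f : Q → P) (vl ρ : ℕ → Set T)
    (h1 : ∀ u q, (∀ x, A.k q ≠ .var x) → C.lab (u, f q) = (A.k q).lab vl ρ u)
    (h2 : ∀ u q x, A.k q = .var x → C.lab (u, f q) = .term (u ∈ ρ x))
    (h3 : ∀ u q o c m nx, A.k q = .node o c m nx → ∀ b,
      C.s (u, f q) b = (if m then b :: u else u, f (nx b))) (n : ℕ) (u : T) (q : Q) :
    (u, f q) ∈ C.val lE n ↔ (u, q) ∈ (A.arena vl ρ).val lE n := by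
  have := Arena.N_hom (A.arena vl ρ) C (fun p => (p.1, f p.2)) (by
      rintro ⟨u, q⟩
      change C.lab (u, f q) = (A.k q).lab vl ρ u
      by_cases hx : ∃ x, A.k q = .var x
      · obtain ⟨x, hx⟩ := hx
        rw [h2 u q x hx, hx]
        rfl
      · exact h1 u q (fun x hx' => hx ⟨x, hx'⟩)) (by
      rintro ⟨u, q⟩ o c h b
      change (A.k q).lab vl ρ u = _ at h
      change C.s (u, f q) b = (((A.k q).step u q b).1, f ((A.k q).step u q b).2)
      rcases hq : A.k q with b' | ⟨a, pos⟩ | y | ⟨o', c', m', nx'⟩ <;> rw [hq] at h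
      · cases h
      · cases h
      · cases h
      · rw [h3 u q _ _ _ _ hq]
        rfl) lE n (fun _ => ∅)
  have h2 : (u, q) ∈ (fun p : T × Q => (p.1, f p.2)) ⁻¹' (C.N lE n (fun _ => ∅)) ↔
      (u, q) ∈ (A.arena vl ρ).N lE n
        (fun _ => (fun p : T × Q => (p.1, f p.2)) ⁻¹' ∅) := by
    rw [this]
  exact h2

def comp (A : Aut Q) (B : ∀ x, Aut (Q' x)) : Aut (Q ⊕ (Σ x, Q' x)) where
  st := .inl A.st
  k := Sum.elim
    (fun q => (A.k q).redir (fun x => .node true 1 false (fun _ => Sum.inr ⟨x, (B x).st⟩))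
      Sum.inl)
    (fun q => ((B q.1).k q.2).redir .var (fun q' => Sum.inr ⟨q.1, q'⟩))

theorem comp_inr (A : Aut Q) (B : ∀ x, Aut (Q' x)) (x : ℕ) (q : Q' x) :
    (A.comp B).k (Sum.inr ⟨x, q⟩) =
      ((B x).k q).redir .var (fun q' => Sum.inr ⟨x, q'⟩) := rfl

theorem comp_bd {A : Aut Q} {B : ∀ x, Aut (Q' x)} {n : ℕ} (hn : 1 ≤ n) (hA : A.Bd n)
    (hB : ∀ x, (B x).Bd n) : (A.comp B).Bd n := by
  intro q o c m nx hq
  rcases q with q | ⟨x, q⟩
  · change (A.k q).redir _ _ = _ at hq
    rcases h : A.k q with b | ⟨a, pos⟩ | x | ⟨o', c', m', nx'⟩ <;> rw [h] at hq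
    · cases hq
    · cases hq
    · cases hq; exact ⟨le_rfl, hn⟩
    · cases hq; exact hA q _ _ _ _ h
  · rw [comp_inr] at hq
    rcases h : (B x).k q with b | ⟨a, pos⟩ | y | ⟨o', c', m', nx'⟩ <;> rw [h] at hq
    · cases hq
    · cases hq
    · cases hq
    · cases hq; exact hB x q _ _ _ _ h

theorem comp_right {A : Aut Q} {B : ∀ x, Aut (Q' x)} {n : ℕ} (vl ρ : ℕ → Set T) (x : ℕ) (u : T)
    (q : Q' x) : (u, (Sum.inr ⟨x, q⟩ : Q ⊕ (Σ x, Q' x))) ∈ ((A.comp B).arena vl ρ).val lE n ↔
      (u, q) ∈ ((B x).arena vl ρ).val lE n := by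
  refine hom (A := B x) ((A.comp B).arena vl ρ) (fun q => Sum.inr ⟨x, q⟩) vl ρ ?_ ?_ ?_ n u q
  · intro u q hq
    change ((A.comp B).k (Sum.inr ⟨x, q⟩)).lab vl ρ u = _
    rw [comp_inr]
    rcases h : (B x).k q with b | ⟨a, pos⟩ | y | ⟨o', c', m', nx'⟩
    · rfl
    · rfl
    · exact absurd h (hq y)
    · rfl
  · intro u q y hq
    change ((A.comp B).k (Sum.inr ⟨x, q⟩)).lab vl ρ u = _
    rw [comp_inr, hq]; rfl
  · intro u q o c m nx hq b
    change ((A.comp B).k (Sum.inr ⟨x, q⟩)).step u _ b = _
    rw [comp_inr, hq]; rfl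

/-- the value of the composition -/
theorem comp_F {A : Aut Q} {B : ∀ x, Aut (Q' x)} {n : ℕ} (hn : 1 ≤ n) (hA : A.Bd n)
    (hB : ∀ x, (B x).Bd n) (vl ρ : ℕ → Set T) :
    (A.comp B).F n vl ρ = A.F n vl (fun x => (B x).F n vl ρ) := by
  classical
  set C := (A.comp B).arena vl ρ with hC
  have hbd : C.Bd n := bd_arena (comp_bd hn hA hB) vl ρ
  let D : Set (T × (Q ⊕ (Σ x, Q' x))) := {p | ∃ q x, p.2 = Sum.inl q ∧ A.k q = .var x}
  let C' : Arena (T × (Q ⊕ (Σ x, Q' x))) :=
    { lab := fun p => if p ∈ D then .term (p ∈ C.val lE n) else C.lab p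
      s := C.s }
  have hbd' : C'.Bd n := by
    intro v o c hv
    change (if v ∈ D then _ else _) = _ at hv
    split_ifs at hv
    exact hbd v o c hv
  have hrep := C.repl C' D hbd hbd' lE
    (fun v hv => ⟨if_neg hv, rfl⟩) (fun v hv => if_pos hv)
  ext u
  change ((u, Sum.inl A.st) : T × (Q ⊕ (Σ x, Q' x))) ∈ C.val lE n ↔ _
  rw [← hrep]
  refine hom (A := A) C' Sum.inl vl (fun x => (B x).F n vl ρ) ?_ ?_ ?_ n u A.st
  · intro u q hq
    change (if _ then _ else _) = _
    rw [if_neg]
    · change ((A.k q).redir _ _).lab _ _ _ = _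
      rcases h : A.k q with b | ⟨a, pos⟩ | y | ⟨o', c', m', nx'⟩
      · rfl
      · rfl
      · exact absurd h (hq y)
      · rfl
    · rintro ⟨q', x, h1, h2⟩
      cases h1
      exact hq x h2
  · intro u q x hq
    change (if _ then _ else _) = _
    rw [if_pos ⟨q, x, rfl, hq⟩]
    congr 1
    rw [hC, mem_val (comp_bd hn hA hB)]
    have e1 : ((A.comp B).arena vl ρ).lab ((u, Sum.inl q) : T × (Q ⊕ (Σ x, Q' x))) =
        .node true 1 := by
      change ((A.k q).redir _ _).lab _ _ _ = _
      rw [hq]; rfl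
    have e2 : ∀ b, ((A.comp B).arena vl ρ).s ((u, Sum.inl q) : T × (Q ⊕ (Σ x, Q' x))) b =
        (u, Sum.inr ⟨x, (B x).st⟩) := by
      intro b
      change ((A.k q).redir _ _).step _ _ _ = _
      rw [hq]; rfl
    rw [e1]
    simp only [Lab.sat, e2]
    rw [exists_const, comp_right]
    rfl
  · intro u q o c m nx hq b
    change ((A.k q).redir _ _).step u _ b = _
    rw [hq]; rfl

/-- close the variable `x` by a loop with priority `n` -/
def loop (A : Aut Q) (x n : ℕ) : Aut Q where
  st := A.st
  k q := (A.k q).redir (fun y => if y = x then .node true n false (fun _ => A.st) else .var y) id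

theorem loop_bd {A : Aut Q} {x n : ℕ} (hn : 1 ≤ n) (hA : A.Bd n) : (A.loop x n).Bd n := by
  intro q o c m nx hq
  change (A.k q).redir _ _ = _ at hq
  rcases h : A.k q with b | ⟨a, pos⟩ | y | ⟨o', c', m', nx'⟩ <;> rw [h] at hq
  · cases hq
  · cases hq
  · change (if y = x then _ else _) = _ at hq
    split_ifs at hq
    cases hq; exact ⟨hn, le_rfl⟩
  · cases hq; exact hA q _ _ _ _ h

theorem F_mono {A : Aut Q} {n : ℕ} (vl ρ : ℕ → Set T) (x : ℕ) :
    Monotone (fun S => A.F n vl (Function.update ρ x S)) := by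
  intro S S' hS u hu
  change (u, A.st) ∈ (A.arena vl (Function.update ρ x S')).N lE n _
  have h : ∀ k (X : ℕ → Set (T × Q)), (A.arena vl (Function.update ρ x S)).N lE k X ⊆
      (A.arena vl (Function.update ρ x S')).N lE k X := by
    intro k
    induction k with
    | zero =>
      intro X p hp
      obtain ⟨u, q⟩ := p
      change ((A.k q).lab _ _ u).sat (fun b => (A.k q).step u q b) X at hp
      change ((A.k q).lab _ _ u).sat (fun b => (A.k q).step u q b) X
      rcases hq : A.k q with b | ⟨a, pos⟩ | y | ⟨o', c', m', nx'⟩ <;> rw [hq] at hp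
      · exact hp
      · exact hp
      · change u ∈ Function.update ρ x S y at hp
        change u ∈ Function.update ρ x S' y
        by_cases hy : y = x
        · subst hy
          rw [Function.update_self] at hp ⊢
          exact hS hp
        · rw [Function.update_of_ne hy] at hp ⊢
          exact hp
      · exact hp
    | succ k ih => exact fun X => Fx_mono fun Y => ih _
  exact h n _ hu

theorem loop_F {A : Aut Q} {x n : ℕ} (hn : 1 ≤ n) (hA : A.Bd n) (vl ρ : ℕ → Set T) :
    (A.loop x n).F n vl ρ = Fx (lE n) (fun S => A.F n vl (Function.update ρ x S)) := by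
  classical
  set C := (A.loop x n).arena vl ρ with hC
  set R := (A.loop x n).F n vl ρ with hR
  have hbd : C.Bd n := bd_arena (loop_bd hn hA) vl ρ
  have hlab : ∀ u q, A.k q = .var x → C.lab (u, q) = .node true n := by
    intro u q hq
    change ((A.k q).redir _ _).lab _ _ _ = _
    rw [hq]
    change (if x = x then Kind.node true n false (fun _ => A.st) else .var x).lab _ _ _ = _
    rw [if_pos rfl]; rfl
  have hs : ∀ u q b, A.k q = .var x → C.s (u, q) b = (u, A.st) := by
    intro u q b hq
    change ((A.k q).redir _ _).step _ _ _ = _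
    rw [hq]
    change (if x = x then Kind.node true n false (fun _ => A.st) else .var x).step _ _ _ = _
    rw [if_pos rfl]; rfl
  -- on the loop positions
  have hon : ∀ (S : Set T) (u : T) (q : Q), A.k q = .var x →
      ((u, q) : T × Q) ∈ C.val lE n → u ∈ R := by
    intro S u q hq h
    rw [hC, mem_val (loop_bd hn hA), ← hC, hlab u q hq] at h
    obtain ⟨b, hb⟩ := h
    rw [hs u q b hq] at hb
    exact hb
  have hlab' : ∀ (S : Set T) u q, (A.arena vl (Function.update ρ x S)).lab (u, q) =
      if A.k q = .var x then .term (u ∈ S) else C.lab (u, q) := by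
    intro S u q
    change (A.k q).lab _ _ _ = if _ then _ else ((A.k q).redir _ _).lab _ _ _
    split_ifs with hq
    · rw [hq]
      change Lab.term (u ∈ Function.update ρ x S x) = _
      rw [Function.update_self]
    · rcases h : A.k q with b | ⟨a, pos⟩ | y | ⟨o', c', m', nx'⟩
      · rfl
      · rfl
      · have hy : y ≠ x := by
          rintro rfl; exact hq h
        change Lab.term (u ∈ Function.update ρ x S y) = (if y = x then
          Kind.node true n false (fun _ => A.st) else .var y).lab _ _ _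
        rw [if_neg hy, Function.update_of_ne hy]
        rfl
      · rfl
  have hs' : ∀ (S : Set T) u q, ¬ A.k q = .var x →
      (A.arena vl (Function.update ρ x S)).s (u, q) = C.s (u, q) := by
    intro S u q hq
    funext b
    change (A.k q).step _ _ _ = ((A.k q).redir _ _).step _ _ _
    rcases h : A.k q with b | ⟨a, pos⟩ | y | ⟨o', c', m', nx'⟩
    · rfl
    · rfl
    · have hy : y ≠ x := by
        rintro rfl; exact hq h
      change _ = (if y = x then Kind.node true n false (fun _ => A.st) else .var y).step _ _ _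
      rw [if_neg hy]
    · rfl
  have hfix : A.F n vl (Function.update ρ x R) = R := by
    have hrep := C.repl (A.arena vl (Function.update ρ x R)) {p | A.k p.2 = .var x} hbd
      (bd_arena hA _ _) lE
      (by
        rintro ⟨u, q⟩ hq
        rw [mem_ofPred_eq] at hq
        refine ⟨?_, hs' R u q hq⟩
        rw [hlab', if_neg hq])
      (by
        rintro ⟨u, q⟩ hq
        rw [mem_ofPred_eq] at hq
        rw [hlab', if_pos hq]
        congr 1
        apply propext
        constructor
        · intro hu
          rw [hC, mem_val (loop_bd hn hA), ← hC, hlab u q hq]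
          refine ⟨true, ?_⟩
          rw [hs u q true hq]
          exact hu
        · exact hon R u q hq)
    ext u
    change (u, A.st) ∈ (A.arena vl (Function.update ρ x R)).val lE n ↔ _
    rw [hrep]
    rfl
  -- agreement of the one step functions
  have hPhi : ∀ (S : Set T) (X : ℕ → Set (T × Q)), (∀ u, (u, A.st) ∈ X n ↔ u ∈ S) →
      C.Phi X = (A.arena vl (Function.update ρ x S)).Phi X := by
    intro S X hX
    ext ⟨u, q⟩
    change (C.lab (u, q)).sat (C.s (u, q)) X ↔
      ((A.arena vl (Function.update ρ x S)).lab (u, q)).sat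
        ((A.arena vl (Function.update ρ x S)).s (u, q)) X
    rw [hlab']
    by_cases hq : A.k q = .var x
    · rw [if_pos hq, hlab u q hq]
      simp only [Lab.sat, hs u q _ hq]
      rw [exists_const, hX]
    · rw [if_neg hq, hs' S u q hq]
  have hN : ∀ (S : Set T) k, k < n → ∀ (X : ℕ → Set (T × Q)), (∀ u, (u, A.st) ∈ X n ↔ u ∈ S) →
      C.N lE k X = (A.arena vl (Function.update ρ x S)).N lE k X := by
    intro S k
    induction k with
    | zero => exact fun _ X hX => hPhi S X hX
    | succ k ih =>
      intro hk X hX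
      change Fx _ _ = Fx _ _
      congr 1
      funext Y
      apply ih (by omega)
      intro u
      rw [Function.update_of_ne (by omega)]
      exact hX u
  obtain ⟨k, rfl⟩ : ∃ k, n = k + 1 := ⟨n - 1, by omega⟩
  have hFm := F_mono (A := A) (n := k + 1) vl ρ x
  rcases hl : lE (k + 1) with _ | _
  · -- greatest
    apply Subset.antisymm
    · exact le_Gf (f := fun S => A.F (k + 1) vl (Function.update ρ x S)) hfix.symm.subset
    · set M := Gf (fun S => A.F (k + 1) vl (Function.update ρ x S)) with hM
      have hMf : A.F (k + 1) vl (Function.update ρ x M) = M := Gf_fix hFm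
      set V := (A.arena vl (Function.update ρ x M)).val lE (k + 1) with hV
      have h1 : V ⊆ C.val lE (k + 1) := by
        change V ⊆ Fx (lE (k + 1)) _
        rw [hl]
        apply le_Gf
        rw [hN M k (by omega)]
        · conv_lhs => rw [hV]
          unfold Arena.val
          rw [← Arena.N_succ]
          rfl
        · intro u
          rw [Function.update_self]
          change u ∈ A.F (k + 1) vl (Function.update ρ x M) ↔ _
          rw [hMf]
      intro u hu
      change u ∈ M at hu
      rw [← hMf] at hu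
      exact h1 hu
  · apply Subset.antisymm
    · set M := Lf (fun S => A.F (k + 1) vl (Function.update ρ x S)) with hM
      have hMf : A.F (k + 1) vl (Function.update ρ x M) = M := Lf_fix hFm
      set V := (A.arena vl (Function.update ρ x M)).val lE (k + 1) with hV
      have h1 : C.val lE (k + 1) ⊆ V := by
        change Fx (lE (k + 1)) _ ⊆ V
        rw [hl]
        apply Lf_le
        rw [hN M k (by omega)]
        · conv_rhs => rw [hV]
          unfold Arena.val
          rw [← Arena.N_succ]
          rfl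
        · intro u
          rw [Function.update_self]
          change u ∈ A.F (k + 1) vl (Function.update ρ x M) ↔ _
          rw [hMf]
      intro u hu
      change u ∈ M
      rw [← hMf]
      exact h1 hu
    · exact Lf_le (f := fun S => A.F (k + 1) vl (Function.update ρ x S)) hfix.subset

end Aut

end Q206.Mu
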