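import Pool.Agent.Q206.Mu.Arena

/-!
# Signatures and strategies
-/

namespace Q206.Mu

open Set

section rank

variable {P : Type}

def Ap (f : Set P → Set P) (b : Ordinal.{0}) : Set P :=
  f {u | ∃ a, ∃ _ : a < b, u ∈ Ap f a}
termination_by b

theorem Ap_eq (f : Set P → Set P) (b : Ordinal.{0}) :
    Ap f b = f {u | ∃ a, a < b ∧ u ∈ Ap f a} := by
  rw [Ap]
  simp only [exists_prop]

theorem bound (r : P → Ordinal.{0}) : ∃ κ : Ordinal.{0}, ∀ u, r u < κ := by
  have h : BddAbove (range r) := Ordinal.bddAbove_of_small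
  obtain ⟨κ, hκ⟩ := h
  exact ⟨Order.succ κ, fun u => Order.lt_succ_of_le (hκ ⟨u, rfl⟩)⟩

theorem rank (f : Set P → Set P) (hf : Monotone f) : ∃ r : P → Ordinal.{0},
    (∀ v ∈ Lf f, v ∈ f {u | u ∈ Lf f ∧ r u < r v}) ∧
    (∀ v b, v ∈ f {u | u ∈ Lf f ∧ r u < b} → v ∈ Lf f ∧ r v ≤ b) := by
  classical
  have h1 : ∀ b, Ap f b ⊆ Lf f := by
    intro b
    induction b using WellFoundedLT.induction with
    | ind b ih =>
      rw [Ap_eq]
      refine Subset.trans ?_ (Lf_pre hf)
      apply hf
      rintro u ⟨a, h1, h2⟩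
      exact ih a h1 h2
  let r : P → Ordinal.{0} := fun v => sInf {b | v ∈ Ap f b}
  have hr : ∀ {v b}, v ∈ Ap f b → v ∈ Ap f (r v) := fun {v b} h =>
    csInf_mem (s := {b | v ∈ Ap f b}) ⟨b, h⟩
  have hr' : ∀ {v b}, v ∈ Ap f b → r v ≤ b := fun {v b} h => csInf_le' h
  have h2 : Lf f ⊆ {v | ∃ b, v ∈ Ap f b} := by
    obtain ⟨κ, hκ⟩ := bound r
    have h3 : {v | ∃ b, v ∈ Ap f b} = {v | ∃ a, a < κ ∧ v ∈ Ap f a} := by
      ext v
      constructor
      · rintro ⟨b, hb⟩
        exact ⟨r v, hκ v, hr hb⟩
      · rintro ⟨b, -, hb⟩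
        exact ⟨b, hb⟩
    apply Lf_le
    rw [h3, ← Ap_eq f]
    intro v hv
    exact ⟨r v, hκ v, hr hv⟩
  have h4 : ∀ b, {u | u ∈ Lf f ∧ r u < b} = {u | ∃ a, a < b ∧ u ∈ Ap f a} := by
    intro b
    ext u
    constructor
    · rintro ⟨h5, h6⟩
      obtain ⟨a, ha⟩ := h2 h5
      exact ⟨r u, h6, hr ha⟩
    · rintro ⟨a, ha, hu⟩
      exact ⟨h1 a hu, (hr' hu).trans_lt ha⟩
  refine ⟨r, fun v hv => ?_, fun v b hv => ?_⟩
  · obtain ⟨a, ha⟩ := h2 hv
    have := hr ha
    rw [Ap_eq, ← h4] at this
    exact this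
  · rw [h4, ← Ap_eq f] at hv
    exact ⟨h1 b hv, hr' hv⟩

end rank

namespace Arena

variable {P : Type} (A : Arena P)

/-- the condition on a strategy `g` with signatures `sg` -/
def Good (l : ℕ → Bool) (k : ℕ) (X : ℕ → Set P) (g : P → Bool) (sg : ℕ → P → Ordinal.{0}) :
    Prop :=
  ∀ v ∈ A.N l k X, ∀ o c, A.lab v = .node o c → ∀ b, (o = true → b = g v) →
    (k < c → A.s v b ∈ X c) ∧ (c ≤ k → A.s v b ∈ A.N l k X) ∧
    ∀ j, j ≤ k → l j = true → (c < j → A.s v b ∈ A.N l k X ∧ sg j (A.s v b) ≤ sg j v) ∧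
      (c = j → A.s v b ∈ A.N l k X ∧ sg j (A.s v b) < sg j v)

theorem good {n : ℕ} (hA : A.Bd n) (l : ℕ → Bool) (k : ℕ) :
    ∀ X : ℕ → Set P, ∃ g sg, A.Good l k X g sg := by
  classical
  induction k with
  | zero =>
    intro X
    have h : ∀ v, ∃ b0, v ∈ A.Phi X → ∀ o c, A.lab v = .node o c → ∀ b, (o = true → b = b0) →
        A.s v b ∈ X c := by
      intro v
      by_cases hv : v ∈ A.Phi X
      · change (A.lab v).sat _ _ at hv
        rcases hl : A.lab v with p | ⟨o, c⟩
        · exact ⟨true, fun _ o c h => by cases h⟩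
        · rw [hl] at hv
          cases o
          · refine ⟨true, fun _ o' c' h b _ => ?_⟩
            cases h
            exact hv b
          · obtain ⟨b0, hb0⟩ := hv
            refine ⟨b0, fun _ o' c' h b hb => ?_⟩
            cases h
            rw [hb rfl]
            exact hb0
      · exact ⟨true, fun h => absurd h hv⟩
    choose g hg using h
    refine ⟨g, fun _ _ => 0, fun v hv o c hl b hb => ?_⟩
    have hc := (hA v o c hl).1
    refine ⟨fun _ => hg v hv o c hl b hb, fun h => by omega, fun j hj _ => ?_⟩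
    exact ⟨fun h => by omega, fun h => by omega⟩
  | succ k ih =>
    intro X
    have hfix := A.N_succ l k X
    rcases hlk : l (k + 1) with _ | _
    · obtain ⟨g, sg, h⟩ := ih (Function.update X (k + 1) (A.N l (k + 1) X))
      refine ⟨g, sg, fun v hv o c hl b hb => ?_⟩
      rw [← hfix] at hv
      obtain ⟨h1, h2, h3⟩ := h v hv o c hl b hb
      rw [hfix] at h2 h3
      refine ⟨fun h4 => ?_, fun h4 => ?_, fun j hj hlj => ?_⟩
      · have := h1 (by omega)
        rwa [Function.update_of_ne (by omega)] at this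
      · by_cases h5 : c = k + 1
        · have := h1 (by omega)
          rw [h5, Function.update_self] at this
          exact this
        · exact h2 (by omega)
      · have hj' : j ≠ k + 1 := by
          rintro rfl
          rw [hlk] at hlj; cases hlj
        exact h3 j (by omega) hlj
    · set f := fun Y => A.N l k (Function.update X (k + 1) Y) with hf
      have hfm : Monotone f := A.N_mono' l k X
      have hV : A.N l (k + 1) X = Lf f := by
        change Fx _ _ = _; rw [hlk]; rfl
      obtain ⟨r, hr1, hr2⟩ := rank f hfm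
      have hch := fun b : Ordinal.{0} =>
        ih (Function.update X (k + 1) {u | u ∈ Lf f ∧ r u < b})
      choose g sg hgs using hch
      have hκ := fun j => bound (fun u => sg (r u) j u)
      choose κ hκ using hκ
      refine ⟨fun v => g (r v) v, fun j v => if j = k + 1 then r v else κ j * r v + sg (r v) j v,
        fun v hv o c hl b hb => ?_⟩
      rw [hV] at hv ⊢
      have hv' := hr1 v hv
      obtain ⟨h1, h2, h3⟩ := hgs (r v) v hv' o c hl b hb
      -- elements of the stage
      have hstage : ∀ u, u ∈ A.N l k (Function.update X (k + 1) {u | u ∈ Lf f ∧ r u < r v}) →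
          u ∈ Lf f ∧ r u ≤ r v := fun u hu => hr2 u (r v) hu
      have hlex : ∀ j u, r u < r v → κ j * r u + sg (r u) j u < κ j * r v + sg (r v) j v := by
        intro j u hu
        calc κ j * r u + sg (r u) j u < κ j * r u + κ j := by
              gcongr
              exact hκ j u
          _ = κ j * (Order.succ (r u)) := by rw [Ordinal.mul_succ]
          _ ≤ κ j * r v := by
              gcongr
              exact Order.succ_le_of_lt hu
          _ ≤ _ := le_self_add
      refine ⟨fun h4 => ?_, fun h4 => ?_, fun j hj hlj => ?_⟩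
      · have := h1 (by omega)
        rwa [Function.update_of_ne (by omega)] at this
      · by_cases h5 : c = k + 1
        · have := h1 (by omega)
          rw [h5, Function.update_self] at this
          exact this.1
        · exact (hstage _ (h2 (by omega))).1
      · by_cases hj' : j = k + 1
        · subst hj'
          simp only [if_pos]
          refine ⟨fun h5 => hstage _ (h2 (by omega)), fun h5 => ?_⟩
          have := h1 (by omega)
          rw [h5, Function.update_self] at this
          exact this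
        · simp only [if_neg hj']
          obtain ⟨h5, h6⟩ := h3 j (by omega) hlj
          constructor
          · intro h7
            obtain ⟨h8, h9⟩ := h5 h7
            obtain ⟨h10, h11⟩ := hstage _ h8
            refine ⟨h10, ?_⟩
            rcases h11.lt_or_eq with h12 | h12
            · exact (hlex j _ h12).le
            · rw [h12]
              gcongr
          · intro h7
            obtain ⟨h8, h9⟩ := h6 h7
            obtain ⟨h10, h11⟩ := hstage _ h8
            refine ⟨h10, ?_⟩
            rcases h11.lt_or_eq with h12 | h12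
            · exact hlex j _ h12
            · rw [h12]
              gcongr

/-- The dual arena. -/
def dual : Arena P := ⟨fun v => match A.lab v with
  | .term p => .term (¬ p)
  | .node o c => .node (!o) c, A.s⟩

theorem Lf_compl (f : Set P → Set P) : (Lf f)ᶜ = Gf (fun Y => (f Yᶜ)ᶜ) := by
  ext v
  constructor
  · intro hv
    have : ¬ ∀ S, f S ⊆ S → v ∈ S := fun h => hv (mem_sInter.2 h)
    push Not at this
    obtain ⟨S, h1, h2⟩ := this
    refine mem_sUnion.2 ⟨Sᶜ, ?_, h2⟩
    change Sᶜ ⊆ (f Sᶜᶜ)ᶜ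
    rw [compl_compl]
    exact compl_subset_compl.2 h1
  · intro hv hv'
    obtain ⟨S, h1, h2⟩ := mem_sUnion.1 hv
    have h1 : S ⊆ (f Sᶜ)ᶜ := h1
    have h3 : f Sᶜ ⊆ Sᶜ := by
      have := compl_subset_compl.2 h1
      rwa [compl_compl] at this
    exact Lf_le h3 hv' h2

theorem Gf_compl (f : Set P → Set P) : (Gf f)ᶜ = Lf (fun Y => (f Yᶜ)ᶜ) := by
  have := Lf_compl (fun Y => (f Yᶜ)ᶜ)
  simp only [compl_compl] at this
  rw [← this, compl_compl]

theorem Fx_compl (b : Bool) (f : Set P → Set P) : (Fx b f)ᶜ = Fx (!b) (fun Y => (f Yᶜ)ᶜ) := by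
  cases b
  · exact Gf_compl f
  · exact Lf_compl f

theorem Phi_compl (X : ℕ → Set P) : (A.Phi X)ᶜ = A.dual.Phi (fun c => (X c)ᶜ) := by
  ext v
  change ¬ (A.lab v).sat (A.s v) X ↔ (match A.lab v with
    | .term p => Lab.term (¬ p)
    | .node o c => .node (!o) c).sat (A.s v) _
  rcases A.lab v with p | ⟨o, c⟩
  · exact Iff.rfl
  · cases o
    · exact not_forall
    · exact not_exists

theorem N_compl (l : ℕ → Bool) (k : ℕ) : ∀ X : ℕ → Set P,
    (A.N l k X)ᶜ = A.dual.N (fun j => !(l j)) k (fun c => (X c)ᶜ) := by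
  induction k with
  | zero => exact A.Phi_compl
  | succ k ih =>
    intro X
    change (Fx _ _)ᶜ = Fx _ _
    rw [Fx_compl]
    congr 1
    funext Y
    rw [ih]
    congr 1
    funext c
    by_cases hc : c = k + 1
    · subst hc; simp
    · simp [hc]

theorem dual_bd {n : ℕ} (h : A.Bd n) : A.dual.Bd n := by
  intro v o c hv
  change (match A.lab v with
    | .term p => Lab.term (¬ p)
    | .node o c => .node (!o) c) = _ at hv
  rcases h' : A.lab v with p | ⟨o', c'⟩ <;> rw [h'] at hv
  · cases hv
  · cases hv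
    exact h v _ _ h'

theorem val_compl {n : ℕ} (h : A.Bd n) (l : ℕ → Bool) :
    (A.val l n)ᶜ = A.dual.val (fun j => !(l j)) n := by
  unfold val
  rw [N_compl]
  exact A.dual.N_indep (A.dual_bd h) _ _ _

end Arena

end Q206.Mu
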