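import Pool.Agent.Q206.Mu.Diag
import Pool.Agent.Q206.Mu.Strat

/-!
# The formulas saying that a marked strategy wins the parity game
-/

namespace Q206.Mu

open Set

variable {M : Model}

def orL : List Fm → Fm
  | [] => .bot
  | φ :: L => .or φ (orL L)

def andL : List Fm → Fm
  | [] => .top
  | φ :: L => .and φ (andL L)

theorem mem_orL (L : List Fm) (ρ : ℕ → Set M.W) (w : M.W) :
    w ∈ (orL L).sem M ρ ↔ ∃ φ ∈ L, w ∈ φ.sem M ρ := by
  induction L with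
  | nil =>
    constructor
    · exact fun h => h.elim
    · rintro ⟨φ, h, -⟩
      cases h
  | cons φ L ih =>
    change w ∈ φ.sem M ρ ∨ w ∈ (orL L).sem M ρ ↔ _
    rw [ih]
    simp

theorem mem_andL (L : List Fm) (ρ : ℕ → Set M.W) (w : M.W) :
    w ∈ (andL L).sem M ρ ↔ ∀ φ ∈ L, w ∈ φ.sem M ρ := by
  induction L with
  | nil =>
    constructor
    · intro _ φ h; cases h
    · exact fun _ => trivial
  | cons φ L ih =>
    change w ∈ φ.sem M ρ ∧ w ∈ (andL L).sem M ρ ↔ _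
    rw [ih]
    simp

theorem mem_lit (a : ℕ) (b : Bool) (ρ : ℕ → Set M.W) (w : M.W) :
    w ∈ (Fm.lit a b).sem M ρ ↔ (w ∈ M.V a ↔ b = true) := by
  cases b
  · change w ∈ (M.V a)ᶜ ↔ _
    simp
  · change w ∈ M.V a ↔ _
    simp

/-- some priority above `k` -/
def hi (m k : ℕ) : Fm :=
  orL (((List.range (m + 1)).filter (fun j => decide (k < j))).map (fun j => .lit (j + 3) true))

def gT (k : ℕ) : Fm := if k ≤ 1 then .top else .lit (k + 3) true
def gF (k : ℕ) : Fm := if k ≤ 1 then .bot else .lit (k + 3) false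

/-- all successors allowed by the strategy marked by the letter `s` of the player `ow` -/
def Bf (ow : Bool) (s : ℕ) (φ : Fm) : Fm :=
  .or (.and (.lit 0 ow) (.box (.or (.lit s false) φ))) (.and (.lit 0 (!ow)) (.box φ))

def consF (ow : Bool) (s : ℕ) : Fm := .or (.lit 0 (!ow)) (.dia (.lit s true))

def bodF (m k : ℕ) (ow : Bool) (s : ℕ) : Fm :=
  .or (hi m k) (.or (.and (gT k) (Bf ow s (.var 1))) (.and (gF k) (Bf ow s (.var 2))))

/-- no allowed path stays at priorities `≤ k` and has priority `k` infinitely often -/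
def al (m k : ℕ) (ow : Bool) (s : ℕ) : Fm := .mu 1 (.nu 2 (bodF m k ow s))

def bads (l : ℕ → Bool) (m : ℕ) : List ℕ :=
  (List.range (m + 1)).filter (fun k => decide (1 ≤ k) && l k)

theorem mem_bads {l : ℕ → Bool} {m k : ℕ} : k ∈ bads l m ↔ k ≤ m ∧ 1 ≤ k ∧ l k = true := by
  unfold bads
  rw [List.mem_filter, List.mem_range, Bool.and_eq_true, decide_eq_true_iff, Nat.lt_succ_iff]

def alA (l : ℕ → Bool) (m : ℕ) (ow : Bool) (s : ℕ) : Fm :=
  andL ((bads l m).map (fun k => al m k ow s))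

/-- the marked strategy of the player `ow` wins -/
def cert (l : ℕ → Bool) (m : ℕ) (ow : Bool) (s : ℕ) : Fm :=
  .nu 0 (.and (.and (consF ow s) (Bf ow s (.var 0))) (alA l m ow s))

/-- semantic box along the allowed steps -/
def BB (M : Model) (ow : Bool) (s : ℕ) (Y : Set M.W) : Set M.W :=
  {w | ∀ v, M.R w v → ((w ∈ M.V 0 ↔ ow = true) → v ∈ M.V s) → v ∈ Y}

def Bod (M : Model) (m k : ℕ) (ow : Bool) (s : ℕ) (Y1 Y2 : Set M.W) : Set M.W :=
  {w | (∃ j, k < j ∧ j ≤ m ∧ w ∈ M.V (j + 3)) ∨ ((k ≤ 1 ∨ w ∈ M.V (k + 3)) ∧ w ∈ BB M ow s Y1) ∨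
    ((2 ≤ k ∧ w ∉ M.V (k + 3)) ∧ w ∈ BB M ow s Y2)}

theorem mem_Bf (ow : Bool) (s : ℕ) (φ : Fm) (ρ : ℕ → Set M.W) (w : M.W) :
    w ∈ (Bf ow s φ).sem M ρ ↔ w ∈ BB M ow s (φ.sem M ρ) := by
  have h1 := mem_lit (M := M) 0 ow ρ w
  have h2 := mem_lit (M := M) 0 (!ow) ρ w
  change (w ∈ (Fm.lit 0 ow).sem M ρ ∧ ∀ v, M.R w v → (v ∈ (Fm.lit s false).sem M ρ ∨
    v ∈ φ.sem M ρ)) ∨ (w ∈ (Fm.lit 0 (!ow)).sem M ρ ∧ ∀ v, M.R w v → v ∈ φ.sem M ρ) ↔
    ∀ v, M.R w v → ((w ∈ M.V 0 ↔ ow = true) → v ∈ M.V s) → v ∈ φ.sem M ρ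
  rw [h1, h2]
  simp only [mem_lit]
  by_cases h : w ∈ M.V 0 <;> cases ow <;> simp [h]
  · constructor
    · intro h v hv hs
      exact (h v hv).resolve_left (fun h' => h' hs)
    · intro h v hv
      by_cases hs : v ∈ M.V s
      · exact Or.inr (h v hv hs)
      · exact Or.inl hs
  · constructor
    · intro h v hv hs
      exact (h v hv).resolve_left (fun h' => h' hs)
    · intro h v hv
      by_cases hs : v ∈ M.V s
      · exact Or.inr (h v hv hs)
      · exact Or.inl hs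

theorem mem_hi (m k : ℕ) (ρ : ℕ → Set M.W) (w : M.W) :
    w ∈ (hi m k).sem M ρ ↔ ∃ j, k < j ∧ j ≤ m ∧ w ∈ M.V (j + 3) := by
  unfold hi
  rw [mem_orL]
  constructor
  · rintro ⟨φ, h1, h2⟩
    obtain ⟨j, h3, rfl⟩ := List.mem_map.1 h1
    rw [List.mem_filter, List.mem_range, decide_eq_true_iff] at h3
    exact ⟨j, h3.2, by omega, h2⟩
  · rintro ⟨j, h1, h2, h3⟩
    refine ⟨.lit (j + 3) true, List.mem_map.2 ⟨j, ?_, rfl⟩, h3⟩
    rw [List.mem_filter, List.mem_range, decide_eq_true_iff]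
    exact ⟨by omega, h1⟩

theorem sem_bodF (m k : ℕ) (ow : Bool) (s : ℕ) (ρ : ℕ → Set M.W) :
    (bodF m k ow s).sem M ρ = Bod M m k ow s (ρ 1) (ρ 2) := by
  ext w
  change w ∈ (hi m k).sem M ρ ∨ ((w ∈ (gT k).sem M ρ ∧ w ∈ (Bf ow s (.var 1)).sem M ρ) ∨
    (w ∈ (gF k).sem M ρ ∧ w ∈ (Bf ow s (.var 2)).sem M ρ)) ↔ _
  rw [mem_hi, mem_Bf, mem_Bf]
  unfold gT gF
  by_cases hk : k ≤ 1
  · rw [if_pos hk, if_pos hk]
    change _ ↔ _ ∨ _ ∨ _
    have h2 : ¬ 2 ≤ k := by omega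
    constructor
    · rintro (h | h | h)
      · exact Or.inl h
      · exact Or.inr (Or.inl ⟨Or.inl hk, h.2⟩)
      · exact h.1.elim
    · rintro (h | h | h)
      · exact Or.inl h
      · exact Or.inr (Or.inl ⟨trivial, h.2⟩)
      · exact absurd h.1.1 h2
  · rw [if_neg hk, if_neg hk]
    change _ ↔ _ ∨ _ ∨ _
    constructor
    · rintro (h | h | h)
      · exact Or.inl h
      · exact Or.inr (Or.inl ⟨Or.inr h.1, h.2⟩)
      · exact Or.inr (Or.inr ⟨⟨by omega, h.1⟩, h.2⟩)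
    · rintro (h | h | h)
      · exact Or.inl h
      · exact Or.inr (Or.inl ⟨h.1.resolve_left hk, h.2⟩)
      · exact Or.inr (Or.inr ⟨h.1.2, h.2⟩)

theorem sem_al (m k : ℕ) (ow : Bool) (s : ℕ) (ρ : ℕ → Set M.W) :
    (al m k ow s).sem M ρ = Lf (fun Y1 => Gf (fun Y2 => Bod M m k ow s Y1 Y2)) := by
  unfold al
  rw [sem_mu]
  congr 1
  funext Y1
  rw [sem_nu]
  congr 1
  funext Y2
  rw [sem_bodF]
  congr 1

theorem sem_cert (l : ℕ → Bool) (m : ℕ) (ow : Bool) (s : ℕ) (ρ : ℕ → Set M.W) :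
    (cert l m ow s).sem M ρ = Gf (fun Y => {w | ((w ∈ M.V 0 ↔ ow = true) →
      ∃ v, M.R w v ∧ v ∈ M.V s) ∧ w ∈ BB M ow s Y ∧ ∀ k, k ≤ m → 1 ≤ k → l k = true →
        w ∈ Lf (fun Y1 => Gf (fun Y2 => Bod M m k ow s Y1 Y2))}) := by
  unfold cert
  rw [sem_nu]
  congr 1
  funext Y
  ext w
  change ((w ∈ (Fm.lit 0 (!ow)).sem M _ ∨ ∃ v, M.R w v ∧ v ∈ (Fm.lit s true).sem M _) ∧
    w ∈ (Bf ow s (.var 0)).sem M _) ∧ w ∈ (alA l m ow s).sem M _ ↔ _
  rw [mem_Bf, mem_lit]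
  have h0 : (Fm.var 0).sem M (Function.update ρ 0 Y) = Y := by
    change Function.update ρ 0 Y 0 = Y
    simp
  rw [h0, and_assoc]
  change _ ↔ _ ∧ _ ∧ _
  refine and_congr ?_ (and_congr Iff.rfl ?_)
  · simp only [mem_lit]
    by_cases h : w ∈ M.V 0 <;> cases ow <;> simp [h]
  · unfold alA
    rw [mem_andL]
    constructor
    · intro h k h1 h2 h3
      have := h (al m k ow s) (List.mem_map.2 ⟨k, mem_bads.2 ⟨h1, h2, h3⟩, rfl⟩)
      rw [sem_al] at this
      exact this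
    · intro h φ hφ
      obtain ⟨k, hk, rfl⟩ := List.mem_map.1 hφ
      rw [mem_bads] at hk
      rw [sem_al]
      exact h k hk.1 hk.2.1 hk.2.2

theorem BB_mono {ow : Bool} {s : ℕ} {Y Y' : Set M.W} (h : Y ⊆ Y') :
    BB M ow s Y ⊆ BB M ow s Y' := fun _ hw v h1 h2 => h (hw v h1 h2)

theorem Bod_mono {m k : ℕ} {ow : Bool} {s : ℕ} {Y1 Y1' Y2 Y2' : Set M.W} (h1 : Y1 ⊆ Y1')
    (h2 : Y2 ⊆ Y2') : Bod M m k ow s Y1 Y2 ⊆ Bod M m k ow s Y1' Y2' := by
  rintro w (h | h | h)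
  · exact Or.inl h
  · exact Or.inr (Or.inl ⟨h.1, BB_mono h1 h.2⟩)
  · exact Or.inr (Or.inr ⟨h.1, BB_mono h2 h.2⟩)

theorem Bod_m2 {m k : ℕ} {ow : Bool} {s : ℕ} (Y1 : Set M.W) :
    Monotone (fun Y2 => Bod M m k ow s Y1 Y2) := fun _ _ h => Bod_mono le_rfl h

theorem Bod_m1 {m k : ℕ} {ow : Bool} {s : ℕ} :
    Monotone (fun Y1 => Gf (fun Y2 => Bod M m k ow s Y1 Y2)) :=
  fun _ _ h => Fx_mono (b := false) fun _ => Bod_mono h le_rfl

/-- Two players cannot both have a winning marked strategy. -/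
theorem cert_disjoint (l : ℕ → Bool) (m : ℕ) (ρ ρ' : ℕ → Set M.W) (w : M.W)
    (hE : w ∈ (cert l m true 2).sem M ρ) (hA : w ∈ (cert (fun j => !(l j)) m false 1).sem M ρ')
    (hm : 1 ≤ m) : False := by
  classical
  rw [sem_cert] at hE hA
  set FE := fun Y : Set M.W => {w | ((w ∈ M.V 0 ↔ true = true) →
      ∃ v, M.R w v ∧ v ∈ M.V 2) ∧ w ∈ BB M true 2 Y ∧ ∀ k, k ≤ m → 1 ≤ k → l k = true →
        w ∈ Lf (fun Y1 => Gf (fun Y2 => Bod M m k true 2 Y1 Y2))} with hFE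
  set FA := fun Y : Set M.W => {w | ((w ∈ M.V 0 ↔ false = true) →
      ∃ v, M.R w v ∧ v ∈ M.V 1) ∧ w ∈ BB M false 1 Y ∧ ∀ k, k ≤ m → 1 ≤ k →
        (!(l k)) = true → w ∈ Lf (fun Y1 => Gf (fun Y2 => Bod M m k false 1 Y1 Y2))} with hFA
  have mE : Monotone FE := fun Y Y' h w hw => ⟨hw.1, BB_mono h hw.2.1, hw.2.2⟩
  have mA : Monotone FA := fun Y Y' h w hw => ⟨hw.1, BB_mono h hw.2.1, hw.2.2⟩
  have pE := Gf_post mE
  have pA := Gf_post mA
  -- joint steps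
  let St : M.W → M.W → Prop := fun w v => M.R w v ∧ (w ∈ M.V 0 → v ∈ M.V 2) ∧
    (w ∉ M.V 0 → v ∈ M.V 1)
  have bE : ∀ {w v : M.W} {Y : Set M.W}, w ∈ BB M true 2 Y → St w v → v ∈ Y := by
    intro w v Y h1 h2
    exact h1 v h2.1 fun h3 => h2.2.1 (h3.2 rfl)
  have bA : ∀ {w v : M.W} {Y : Set M.W}, w ∈ BB M false 1 Y → St w v → v ∈ Y := by
    intro w v Y h1 h2
    refine h1 v h2.1 fun h3 => h2.2.2 fun h4 => ?_
    have := h3.1 h4
    cases this
  have hex : ∀ w, w ∈ Gf FE → w ∈ Gf FA → ∃ v, St w v := by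
    intro w h1 h2
    by_cases h : w ∈ M.V 0
    · obtain ⟨v, h3, h4⟩ := (pE h1).1 ⟨fun _ => rfl, fun _ => h⟩
      exact ⟨v, h3, fun _ => h4, fun h5 => absurd h h5⟩
    · obtain ⟨v, h3, h4⟩ := (pA h2).1 ⟨fun h5 => absurd h5 h, fun h5 => by cases h5⟩
      exact ⟨v, h3, fun h5 => absurd h5 h, fun _ => h4⟩
  have key : ∀ k, 1 ≤ k → k ≤ m → ∀ R : Set M.W, R ⊆ Gf FE ∩ Gf FA →
      (∀ u ∈ R, ∀ v, St u v → v ∈ R) →
      (∀ u ∈ R, ∀ j, k < j → j ≤ m → u ∉ M.V (j + 3)) → R = ∅ := by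
    intro k
    induction k with
    | zero => intro h; omega
    | succ k ih =>
      intro _ hkm R hR hcl hpr
      -- the relevant player
      have main : ∀ (ow : Bool) (s : ℕ), (∀ u ∈ R, u ∈ Lf (fun Y1 => Gf (fun Y2 =>
          Bod M m (k + 1) ow s Y1 Y2))) → (∀ {w v : M.W} {Y : Set M.W}, w ∈ BB M ow s Y →
          St w v → v ∈ Y) → R = ∅ := by
        intro ow s hal hb
        have h1 : Lf (fun Y1 => Gf (fun Y2 => Bod M m (k + 1) ow s Y1 Y2)) ⊆ Rᶜ := by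
          apply Lf_le
          set U := Gf (fun Y2 => Bod M m (k + 1) ow s Rᶜ Y2) with hU
          have hUp : U ⊆ Bod M m (k + 1) ow s Rᶜ U := Gf_post (Bod_m2 _)
          intro u0 hu0 hu0'
          have h2 : ∀ u ∈ R ∩ U, (2 ≤ k + 1 ∧ u ∉ M.V (k + 1 + 3)) ∧ u ∈ BB M ow s U := by
            rintro u ⟨h3, h4⟩
            rcases hUp h4 with ⟨j, h5, h6, h7⟩ | h5 | h5
            · exact absurd h7 (hpr u h3 j h5 h6)
            · obtain ⟨v, hv⟩ := hex u (hR h3).1 (hR h3).2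
              exact absurd (hcl u h3 v hv) (hb h5.2 hv)
            · exact h5
          have hk1 : 1 ≤ k := by
            have := (h2 u0 ⟨hu0', hu0⟩).1.1
            omega
          have h3 := ih hk1 (by omega) (R ∩ U) (fun u hu => hR hu.1)
            (fun u hu v hv => ⟨hcl u hu.1 v hv, hb (h2 u hu).2 hv⟩)
            (by
              intro u hu j hj hjm
              by_cases h4 : j = k + 1
              · subst h4
                exact (h2 u hu).1.2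
              · exact hpr u hu.1 j (by omega) hjm)
          have h4 : u0 ∈ R ∩ U := ⟨hu0', hu0⟩
          rw [h3] at h4
          exact h4
        rw [eq_empty_iff_forall_notMem]
        intro u hu
        exact h1 (hal u hu) hu
      rcases hl : l (k + 1) with _ | _
      · exact main false 1 (fun u hu => (pA (hR hu).2).2.2 (k + 1) hkm (by omega)
          (by rw [hl]; rfl)) bA
      · exact main true 2 (fun u hu => (pE (hR hu).1).2.2 (k + 1) hkm (by omega) hl) bE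
  have h1 := key m hm le_rfl (Gf FE ∩ Gf FA) le_rfl
    (fun u hu v hv => ⟨bE (pE hu.1).2.1 hv, bA (pA hu.2).2.1 hv⟩)
    (fun u hu j hj hjm => by omega)
  have h2 : w ∈ Gf FE ∩ Gf FA := ⟨hE, hA⟩
  rw [h1] at h2
  exact h2

/-- the tree arena seen by the player `ow` -/
def TO (lb : T → Bool × ℕ) (ow : Bool) : Arena T :=
  ⟨fun w => .node ((lb w).1 == ow) (lb w).2, fun w b => b :: w⟩

/-- If the player `ow` wins at the root then some marked strategy makes the formula true. -/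
theorem cert_true {lb : T → Bool × ℕ} {m : ℕ} (hlb : ∀ w, 1 ≤ (lb w).2 ∧ (lb w).2 ≤ m)
    (l : ℕ → Bool) (ow : Bool) (s : ℕ) (hs : s = 1 ∨ s = 2)
    (hw : [] ∈ (TO lb ow).val l m) :
    ∃ S : Set T, ∀ ρ : ℕ → Set T, ([] : T) ∈
      (cert l m ow s).sem (treeModel (Function.update (vlOf lb) s S)) ρ := by
  have hbd : (TO lb ow).Bd m := by
    intro w o c h
    cases h
    exact hlb w
  obtain ⟨g, sg, hg⟩ := (TO lb ow).good hbd l m (fun _ => ∅)
  set V := (TO lb ow).val l m with hV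
  refine ⟨{w | ∃ u, w = g u :: u}, fun ρ => ?_⟩
  set M := treeModel (Function.update (vlOf lb) s {w | ∃ u, w = g u :: u}) with hM
  -- the steps
  have hs0 : (0 : ℕ) ≠ s := by omega
  have hV0 : ∀ w : T, (w ∈ M.V 0 ↔ ow = true) ↔ ((lb w).1 == ow) = true := by
    intro w
    change (w ∈ Function.update (vlOf lb) s _ 0 ↔ _) ↔ _
    rw [Function.update_of_ne hs0]
    change (valL 0 (lb w) = true ↔ _) ↔ _
    rw [beq_iff_eq]
    have : valL 0 (lb w) = (lb w).1 := by simp [valL]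
    rw [this]
    cases (lb w).1 <;> cases ow <;> simp
  have hVj : ∀ (w : T) (j : ℕ), 2 ≤ j → (w ∈ M.V (j + 3) ↔ j ≤ (lb w).2) := by
    intro w j hj
    change w ∈ Function.update (vlOf lb) s _ (j + 3) ↔ _
    rw [Function.update_of_ne (by omega)]
    change valL (j + 3) (lb w) = true ↔ _
    simp only [valL, Bool.or_eq_true, Bool.and_eq_true, decide_eq_true_iff]
    omega
  have hVs : ∀ (w : T) (b : Bool), (b :: w ∈ M.V s ↔ b = g w) := by
    intro w b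
    change b :: w ∈ Function.update (vlOf lb) s _ s ↔ _
    rw [Function.update_self]
    constructor
    · rintro ⟨u, hu⟩
      cases hu
      rfl
    · rintro rfl
      exact ⟨w, rfl⟩
  have hBB : ∀ (w : T) (Y : Set T), (∀ b, (((lb w).1 == ow) = true → b = g w) → b :: w ∈ Y) →
      w ∈ BB M ow s Y := by
    rintro w Y h v ⟨b, rfl⟩ h2
    apply h
    intro h3
    rw [← hV0] at h3
    exact (hVs w b).1 (h2 h3)
  -- properties of the strategy
  have hgood : ∀ w ∈ V, ∀ b, (((lb w).1 == ow) = true → b = g w) → b :: w ∈ V ∧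
      ∀ j, j ≤ m → l j = true → ((lb w).2 < j → sg j (b :: w) ≤ sg j w) ∧
        ((lb w).2 = j → sg j (b :: w) < sg j w) := by
    intro w hw b hb
    obtain ⟨-, h2, h3⟩ := hg w hw _ _ rfl b hb
    refine ⟨h2 (hlb w).2, fun j hj hlj => ⟨fun h => ?_, fun h => ?_⟩⟩
    · exact ((h3 j hj hlj).1 h).2
    · exact ((h3 j hj hlj).2 h).2
  have hal : ∀ k, k ≤ m → 1 ≤ k → l k = true → ∀ a : Ordinal.{0}, ∀ w ∈ V, sg k w = a →
      w ∈ Lf (fun Y1 => Gf (fun Y2 => Bod M m k ow s Y1 Y2)) := by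
    intro k hkm hk1 hlk a
    induction a using WellFoundedLT.induction with
    | ind a ih =>
      intro w hw hwa
      rw [← Lf_fix Bod_m1]
      set L := Lf (fun Y1 => Gf (fun Y2 => Bod M m k ow s Y1 Y2)) with hL
      have h1 : {u : T | u ∈ V ∧ sg k u ≤ a} ⊆ Gf (fun Y2 => Bod M m k ow s L Y2) := by
        apply le_Gf
        rintro u ⟨hu, hua⟩
        rcases lt_trichotomy (lb u).2 k with h | h | h
        · refine Or.inr (Or.inr ⟨⟨by have := (hlb u).1; omega, ?_⟩, ?_⟩)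
          · intro h'
            have := (hVj u k (by have := (hlb u).1; omega)).1 h'
            omega
          · apply hBB
            intro b hb
            obtain ⟨h2, h3⟩ := hgood u hu b hb
            exact ⟨h2, ((h3 k hkm hlk).1 h).trans hua⟩
        · refine Or.inr (Or.inl ⟨?_, ?_⟩)
          · by_cases hk : k ≤ 1
            · exact Or.inl hk
            · exact Or.inr ((hVj u k (by omega)).2 (by omega))
          · apply hBB
            intro b hb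
            obtain ⟨h2, h3⟩ := hgood u hu b hb
            exact ih _ (((h3 k hkm hlk).2 h).trans_le hua) _ h2 rfl
        · exact Or.inl ⟨(lb u).2, h, (hlb u).2, (hVj u _ (by omega)).2 le_rfl⟩
      exact h1 ⟨hw, hwa.le⟩
  rw [sem_cert]
  have h2 : V ⊆ Gf (fun Y => {w | ((w ∈ M.V 0 ↔ ow = true) →
      ∃ v, M.R w v ∧ v ∈ M.V s) ∧ w ∈ BB M ow s Y ∧ ∀ k, k ≤ m → 1 ≤ k → l k = true →
        w ∈ Lf (fun Y1 => Gf (fun Y2 => Bod M m k ow s Y1 Y2))}) := by
    apply le_Gf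
    intro w hw
    refine ⟨fun _ => ⟨g w :: w, ⟨g w, rfl⟩, (hVs w (g w)).2 rfl⟩, ?_, ?_⟩
    · apply hBB
      exact fun b hb => (hgood w hw b hb).1
    · exact fun k h1 h2 h3 => hal k h1 h2 h3 _ w hw rfl
  exact h2 hw

end Q206.Mu
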