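import Mathlib

/-!
# The modal mu-calculus, its alternation hierarchy, Craig interpolation
-/

namespace Q206.Mu

open Set

/-- Formulas of the modal mu-calculus in negation normal form.  Propositional letters and
fixpoint variables are named by natural numbers; `lit a true` is the letter `a` and
`lit a false` its negation.  Fixpoint variables are never negated. -/
inductive Fm : Type
  | top : Fm
  | bot : Fm
  | lit (a : ℕ) (pos : Bool) : Fm
  | var (x : ℕ) : Fm
  | and (φ ψ : Fm) : Fm
  | or (φ ψ : Fm) : Fm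
  | dia (φ : Fm) : Fm
  | box (φ : Fm) : Fm
  | mu (x : ℕ) (φ : Fm) : Fm
  | nu (x : ℕ) (φ : Fm) : Fm

/-- A Kripke model. -/
structure Model where
  /-- the points -/
  W : Type
  /-- the accessibility relation -/
  R : W → W → Prop
  /-- the valuation of the propositional letters -/
  V : ℕ → Set W

/-- The set of points at which a formula is true; `ρ` interprets the free fixpoint variables.
The fixpoint operators are the least pre-fixpoint and the greatest post-fixpoint. -/
def Fm.sem (M : Model) : Fm → (ℕ → Set M.W) → Set M.W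
  | .top, _ => univ
  | .bot, _ => ∅
  | .lit a true, _ => M.V a
  | .lit a false, _ => (M.V a)ᶜ
  | .var x, ρ => ρ x
  | .and φ ψ, ρ => φ.sem M ρ ∩ ψ.sem M ρ
  | .or φ ψ, ρ => φ.sem M ρ ∪ ψ.sem M ρ
  | .dia φ, ρ => {w | ∃ v, M.R w v ∧ v ∈ φ.sem M ρ}
  | .box φ, ρ => {w | ∀ v, M.R w v → v ∈ φ.sem M ρ}
  | .mu x φ, ρ => ⋂₀ {S | φ.sem M (Function.update ρ x S) ⊆ S}
  | .nu x φ, ρ => ⋃₀ {S | S ⊆ φ.sem M (Function.update ρ x S)}

/-- The free fixpoint variables. -/
def Fm.fv : Fm → Set ℕ
  | .top | .bot | .lit _ _ => ∅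
  | .var x => {x}
  | .and φ ψ | .or φ ψ => φ.fv ∪ ψ.fv
  | .dia φ | .box φ => φ.fv
  | .mu x φ | .nu x φ => φ.fv \ {x}

/-- The propositional letters occurring in a formula. -/
def Fm.letters : Fm → Set ℕ
  | .top | .bot | .var _ => ∅
  | .lit a _ => {a}
  | .and φ ψ | .or φ ψ => φ.letters ∪ ψ.letters
  | .dia φ | .box φ => φ.letters
  | .mu _ φ | .nu _ φ => φ.letters

/-- Fixpoint-free formulas. -/
def Fm.FixFree : Fm → Prop
  | .top | .bot | .lit _ _ | .var _ => True
  | .and φ ψ | .or φ ψ => φ.FixFree ∧ ψ.FixFree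
  | .dia φ | .box φ => φ.FixFree
  | .mu _ _ | .nu _ _ => False

/-- `φ.subst x ψ`: replace the free occurrences of the variable `x` in `φ` by `ψ`. -/
def Fm.subst : Fm → ℕ → Fm → Fm
  | .top, _, _ => .top
  | .bot, _, _ => .bot
  | .lit a b, _, _ => .lit a b
  | .var y, x, ψ => if y = x then ψ else .var y
  | .and φ χ, x, ψ => .and (φ.subst x ψ) (χ.subst x ψ)
  | .or φ χ, x, ψ => .or (φ.subst x ψ) (χ.subst x ψ)
  | .dia φ, x, ψ => .dia (φ.subst x ψ)
  | .box φ, x, ψ => .box (φ.subst x ψ)
  | .mu y φ, x, ψ => if y = x then .mu y φ else .mu y (φ.subst x ψ)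
  | .nu y φ, x, ψ => if y = x then .nu y φ else .nu y (φ.subst x ψ)

/-- `φ.NoCapture x ψ`: no free variable of `ψ` is captured when `ψ` is substituted for the free
occurrences of `x` in `φ`. -/
def Fm.NoCapture : Fm → ℕ → Fm → Prop
  | .top, _, _ | .bot, _, _ | .lit _ _, _, _ | .var _, _, _ => True
  | .and φ χ, x, ψ | .or φ χ, x, ψ => φ.NoCapture x ψ ∧ χ.NoCapture x ψ
  | .dia φ, x, ψ | .box φ, x, ψ => φ.NoCapture x ψ
  | .mu y φ, x, ψ | .nu y φ, x, ψ => y = x ∨ x ∉ φ.fv ∨ (y ∉ ψ.fv ∧ φ.NoCapture x ψ)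

/-- The least set of formulas which contains `B` and is closed under conjunction, disjunction,
both modalities, one of the two fixpoint operators (`mu` for `least = true`, `nu` for
`least = false`), and capture-free substitution. -/
inductive Clo (least : Bool) (B : Set Fm) : Fm → Prop
  | base {φ : Fm} : φ ∈ B → Clo least B φ
  | and {φ ψ : Fm} : Clo least B φ → Clo least B ψ → Clo least B (.and φ ψ)
  | or {φ ψ : Fm} : Clo least B φ → Clo least B ψ → Clo least B (.or φ ψ)
  | dia {φ : Fm} : Clo least B φ → Clo least B (.dia φ)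
  | box {φ : Fm} : Clo least B φ → Clo least B (.box φ)
  | mu {x : ℕ} {φ : Fm} : least = true → Clo least B φ → Clo least B (.mu x φ)
  | nu {x : ℕ} {φ : Fm} : least = false → Clo least B φ → Clo least B (.nu x φ)
  | subst {x : ℕ} {φ ψ : Fm} : Clo least B φ → Clo least B ψ → φ.NoCapture x ψ →
      Clo least B (φ.subst x ψ)

/-- The alternation hierarchy (the syntactic version of Niwinski): `Level n true` is `Σ_n` and
`Level n false` is `Π_n`. -/
def Level : ℕ → Bool → Set Fm
  | 0, _ => {φ | φ.FixFree}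
  | n + 1, b => {φ | Clo b (Level n true ∪ Level n false) φ}

/-- The level `Σ_n`. -/
def Sig (n : ℕ) : Set Fm := Level n true

/-- The level `Π_n`. -/
def Pi (n : ℕ) : Set Fm := Level n false

/-- The implication `φ → ψ` is valid: in every Kripke model (and under every interpretation of
the free fixpoint variables, if there are any) `ψ` is true wherever `φ` is. -/
def Entails (φ ψ : Fm) : Prop :=
  ∀ (M : Model) (ρ : ℕ → Set M.W), φ.sem M ρ ⊆ ψ.sem M ρ

/-- Craig interpolation for the sentences of a set `F` of formulas. -/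
def CraigInterpolation (F : Set Fm) : Prop :=
  ∀ φ ψ : Fm, φ ∈ F → ψ ∈ F → φ.fv = ∅ → ψ.fv = ∅ → Entails φ ψ →
    ∃ χ ∈ F, χ.fv = ∅ ∧ χ.letters ⊆ φ.letters ∩ ψ.letters ∧ Entails φ χ ∧ Entails χ ψ

end Q206.Mu
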