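import Pool.Agent.Q206.Mu.Rep

/-!
# The diagonal tree
-/

namespace Q206.Mu

open Set

/-- truth of the letter `a` at a node with owner `p.1` and priority `p.2` -/
def valL (a : ℕ) (p : Bool × ℕ) : Bool := (decide (a = 0) && p.1) || decide (5 ≤ a ∧ a ≤ p.2 + 3)

/-- the valuation given by a labelling with owners and priorities -/
def vlOf (lb : T → Bool × ℕ) (a : ℕ) : Set T := {w | valL a (lb w) = true}

/-- the tree as an arena -/
def TA (lb : T → Bool × ℕ) : Arena T := ⟨fun w => .node (lb w).1 (lb w).2, fun w b => b :: w⟩

def sink (b : Bool) : Bool × ℕ := (true, if b then 2 else 1)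

namespace Arena

theorem selfloop {P : Type} (A : Arena P) (l : ℕ → Bool) (v : P) {c : ℕ} (hc : 1 ≤ c)
    (h1 : A.lab v = .node true c) (h2 : ∀ b, A.s v b = v) (k : ℕ) : ∀ X : ℕ → Set P,
    (v ∈ A.N l k X ↔ if c ≤ k then l c = false else v ∈ X c) := by
  induction k with
  | zero =>
    intro X
    change (A.lab v).sat _ _ ↔ _
    rw [h1, if_neg (by omega)]
    simp only [Lab.sat, h2, exists_const]
  | succ k ih =>
    intro X
    set V := A.N l (k + 1) X with hV
    have hfix := A.N_succ l k X
    rw [← hV] at hfix
    by_cases h3 : c ≤ k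
    · conv_lhs => rw [← hfix]
      rw [ih, if_pos h3, if_pos (by omega)]
    · by_cases h4 : c = k + 1
      · subst h4
        rw [if_pos le_rfl]
        have hstep : ∀ Y, v ∈ A.N l k (Function.update X (k + 1) Y) ↔ v ∈ Y := by
          intro Y
          rw [ih, if_neg (by omega), Function.update_self]
        rcases hl : l (k + 1) with _ | _
        · simp only [iff_true]
          have : V ∪ {v} ⊆ V := by
            conv_rhs => rw [hV]
            change _ ⊆ Fx _ _
            rw [hl]
            apply le_Gf
            rintro u (hu | hu)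
            · have h5 : V ⊆ A.N l k (Function.update X (k + 1) (V ∪ {v})) := by
                conv_lhs => rw [← hfix]
                exact A.N_mono' l k X subset_union_left
              exact h5 hu
            · rw [mem_singleton_iff] at hu
              subst hu
              rw [hstep]
              exact Or.inr rfl
          exact this (Or.inr rfl)
        · simp only [Bool.true_eq_false, iff_false]
          have : V ⊆ V \ {v} := by
            conv_lhs => rw [hV]
            change Fx _ _ ⊆ _
            rw [hl]
            apply Lf_le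
            intro u hu
            refine ⟨?_, ?_⟩
            · have h5 : A.N l k (Function.update X (k + 1) (V \ {v})) ⊆ V := by
                conv_rhs => rw [← hfix]
                exact A.N_mono' l k X Set.sdiff_subset
              exact h5 hu
            · rw [mem_singleton_iff]
              rintro rfl
              rw [hstep] at hu
              exact hu.2 rfl
          exact fun hv => (this hv).2 rfl
      · conv_lhs => rw [← hfix]
        rw [ih, if_neg h3, if_neg (by omega), Function.update_of_ne h4]

end Arena

section diag

variable {Q : Type} (A : Aut Q)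

def pos : T → T × Q
  | [] => ([], A.st)
  | b :: w => (A.k (pos w).2).step (pos w).1 (pos w).2 b

theorem pos_len (w : T) : (pos A w).1.length ≤ w.length := by
  induction w with
  | nil => exact le_rfl
  | cons b w ih =>
    change ((A.k (pos A w).2).step (pos A w).1 (pos A w).2 b).1.length ≤ w.length + 1
    rcases A.k (pos A w).2 with b' | ⟨a, p⟩ | x | ⟨o, c, m, nx⟩
    · exact ih.trans (Nat.le_succ _)
    · exact ih.trans (Nat.le_succ _)
    · exact ih.trans (Nat.le_succ _)
    · change (if m then b :: (pos A w).1 else (pos A w).1).length ≤ _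
      split_ifs
      · simpa using ih
      · exact ih.trans (Nat.le_succ _)

theorem pos_len' {o : Bool} {c : ℕ} {nx : Bool → Q} (h : A.k A.st = .node o c false nx) (b : Bool)
    (w : T) : (pos A (b :: w)).1.length ≤ w.length := by
  induction w generalizing b with
  | nil =>
    change ((A.k A.st).step [] A.st b).1.length ≤ 0
    rw [h]
    exact le_rfl
  | cons b' w ih =>
    change ((A.k (pos A (b' :: w)).2).step (pos A (b' :: w)).1 (pos A (b' :: w)).2 b).1.length ≤
      w.length + 1
    have ih := ih b'
    rcases A.k (pos A (b' :: w)).2 with b'' | ⟨a, p⟩ | x | ⟨o, c, m, nx⟩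
    · exact ih.trans (Nat.le_succ _)
    · exact ih.trans (Nat.le_succ _)
    · exact ih.trans (Nat.le_succ _)
    · change (if m then b :: (pos A (b' :: w)).1 else (pos A (b' :: w)).1).length ≤ _
      split_ifs
      · simpa using ih
      · exact ih.trans (Nat.le_succ _)

/-- the labelling which makes the tree equal to the evaluation game played on the tree itself -/
def lb (w : T) : Bool × ℕ :=
  match A.k (pos A w).2 with
  | .node o c _ _ => (o, c)
  | .con b => sink b
  | .var _ => sink false
  | .lit a p => if _h : (pos A w).1.length < w.length then sink (valL a (lb (pos A w).1) == p)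
      else (true, 1)
termination_by w.length

theorem lb_node {w : T} {o : Bool} {c : ℕ} {m : Bool} {nx : Bool → Q}
    (h : A.k (pos A w).2 = .node o c m nx) : lb A w = (o, c) := by rw [lb, h]

theorem lb_con {w : T} {b : Bool} (h : A.k (pos A w).2 = .con b) : lb A w = sink b := by
  rw [lb, h]

theorem lb_var {w : T} {x : ℕ} (h : A.k (pos A w).2 = .var x) : lb A w = sink false := by
  rw [lb, h]

theorem lb_lit {w : T} {a : ℕ} {p : Bool} (h : A.k (pos A w).2 = .lit a p)
    (hw : (pos A w).1.length < w.length) :
    lb A w = sink (valL a (lb A (pos A w).1) == p) := by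
  conv_lhs => rw [lb, h]
  change (if _h : _ then _ else _) = _
  rw [dif_pos hw]

theorem lb_bd {n : ℕ} (hn : 2 ≤ n) (hA : A.Bd n) {o : Bool} {c : ℕ} {nx : Bool → Q}
    (hst : A.k A.st = .node o c false nx) (w : T) : 1 ≤ (lb A w).2 ∧ (lb A w).2 ≤ n := by
  have hsink : ∀ b, 1 ≤ (sink b).2 ∧ (sink b).2 ≤ n := by
    intro b
    cases b
    · exact ⟨le_rfl, by change 1 ≤ n; omega⟩
    · exact ⟨by change 1 ≤ 2; omega, hn⟩
  rcases h : A.k (pos A w).2 with b | ⟨a, p⟩ | x | ⟨o', c', m, nx'⟩
  · rw [lb_con A h]; exact hsink b
  · have hw : (pos A w).1.length < w.length := by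
      cases w with
      | nil =>
        change A.k A.st = _ at h
        rw [hst] at h; cases h
      | cons b w => exact Nat.lt_succ_of_le (pos_len' A hst b w)
    rw [lb_lit A h hw]
    exact hsink _
  · rw [lb_var A h]; exact hsink _
  · rw [lb_node A h]
    exact hA _ _ _ _ _ h

open Classical in
theorem diag_aut {n : ℕ} (hn : 2 ≤ n) (hA : A.Bd n) {o : Bool} {c : ℕ} {nx : Bool → Q}
    (hst : A.k A.st = .node o c false nx) :
    ([] : T) ∈ A.F n (vlOf (lb A)) (fun _ => ∅) ↔ [] ∈ (TA (lb A)).val lE n := by
  set P := A.arena (vlOf (lb A)) (fun _ => ∅) with hP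
  let Ps : Arena (T × Q) :=
    { lab := fun p => match P.lab p with
        | .term q => .node true (if q then 2 else 1)
        | .node o c => .node o c
      s := P.s }
  have hbP : P.Bd n := Aut.bd_arena hA _ _
  have hPs1 : ∀ p q, P.lab p = .term q → Ps.lab p = .node true (if q then 2 else 1) := by
    intro p q h
    change (match P.lab p with
        | .term q => Lab.node true (if q then 2 else 1)
        | .node o c => .node o c) = _
    rw [h]
  have hPs2 : ∀ p o c, P.lab p = .node o c → Ps.lab p = .node o c := by
    intro p o c h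
    change (match P.lab p with
        | .term q => Lab.node true (if q then 2 else 1)
        | .node o c => .node o c) = _
    rw [h]
  have hbPs : Ps.Bd n := by
    intro p o c h
    rcases h' : P.lab p with q | ⟨o', c'⟩
    · rw [hPs1 p q h'] at h
      cases h
      split_ifs
      · exact ⟨by omega, hn⟩
      · exact ⟨le_rfl, by omega⟩
    · rw [hPs2 p o' c' h'] at h
      cases h
      exact hbP p _ _ h'
  have hself : ∀ p q, P.lab p = .term q → ∀ b, P.s p b = p := by
    rintro ⟨u, r⟩ q h b
    change (A.k r).lab _ _ u = _ at h
    change (A.k r).step u r b = _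
    rcases h' : A.k r with b | ⟨a, p⟩ | x | ⟨o', c', m, nx'⟩ <;> rw [h'] at h
    · rfl
    · rfl
    · rfl
    · cases h
  have hval : P.val lE n = Ps.val lE n := by
    apply Ps.repl P {p | ∃ q, P.lab p = .term q} hbPs hbP lE
    · intro p hp
      rcases h' : P.lab p with q | ⟨o', c'⟩
      · exact absurd ⟨q, h'⟩ hp
      · exact ⟨(hPs2 p _ _ h').symm, rfl⟩
    · rintro p ⟨q, hq⟩
      rw [hq]
      congr 1
      apply propext
      have h1 := Ps.selfloop lE p (c := if q then 2 else 1) (by split_ifs <;> omega)
        (hPs1 p q hq) (hself p q hq) n (fun _ => ∅)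
      rw [if_pos (by split_ifs <;> omega)] at h1
      refine Iff.trans ?_ h1.symm
      by_cases hq' : q
      · rw [if_pos hq']
        simp [hq', lE]
      · rw [if_neg hq']
        simp [hq', lE]
  have hhom := Arena.N_hom (TA (lb A)) Ps (pos A) (by
      intro w
      change _ = Lab.node (lb A w).1 (lb A w).2
      rcases h : A.k (pos A w).2 with b | ⟨a, p⟩ | x | ⟨o', c', m, nx'⟩
      · have h' : P.lab (pos A w) = .term (b = true) := by
          change (A.k (pos A w).2).lab _ _ _ = _
          rw [h]; rfl
        rw [hPs1 _ _ h', lb_con A h]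
        cases b <;> simp [sink]
      · have hw : (pos A w).1.length < w.length := by
          cases w with
          | nil =>
            change A.k A.st = _ at h
            rw [hst] at h; cases h
          | cons b w => exact Nat.lt_succ_of_le (pos_len' A hst b w)
        have h' : P.lab (pos A w) = .term ((pos A w).1 ∈ vlOf (lb A) a ↔ p = true) := by
          change (A.k (pos A w).2).lab _ _ _ = _
          rw [h]; rfl
        rw [hPs1 _ _ h', lb_lit A h hw]
        change Lab.node true _ = Lab.node true (if _ then 2 else 1)
        congr 1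
        have : ((pos A w).1 ∈ vlOf (lb A) a ↔ p = true) ↔
            (valL a (lb A (pos A w).1) == p) = true := by
          change (valL a (lb A (pos A w).1) = true ↔ p = true) ↔ _
          rw [beq_iff_eq]
          cases valL a (lb A (pos A w).1) <;> cases p <;> simp
        by_cases hh : (valL a (lb A (pos A w).1) == p) = true
        · rw [if_pos (this.2 hh), if_pos hh]
        · rw [if_neg (fun h => hh (this.1 h)), if_neg hh]
      · have h' : P.lab (pos A w) = .term False := by
          change (A.k (pos A w).2).lab _ _ _ = _
          rw [h]; rfl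
        rw [hPs1 _ _ h', lb_var A h]
        change Lab.node true _ = Lab.node true _
        congr 1
        simp [sink]
      · have h' : P.lab (pos A w) = .node o' c' := by
          change (A.k (pos A w).2).lab _ _ _ = _
          rw [h]; rfl
        rw [hPs2 _ _ _ h', lb_node A h]) (fun w _ _ _ b => rfl) lE n (fun _ => ∅)
  change (([], A.st) : T × Q) ∈ P.val lE n ↔ _
  rw [hval]
  have h2 : ([] : T) ∈ (pos A) ⁻¹' (Ps.N lE n (fun _ => ∅)) ↔
      [] ∈ (TA (lb A)).N lE n (fun _ => (pos A) ⁻¹' ∅) := by rw [hhom]
  exact h2

end diag

/-- For every function given by an automaton there is a labelled tree on which the function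
agrees at the root with the winner of the parity game played on the tree itself. -/
theorem diag {n : ℕ} (hn : 2 ≤ n) {G : (ℕ → Set T) → (ℕ → Set T) → Set T} (hG : Rep n G) :
    ∃ lb : T → Bool × ℕ, (∀ w, 1 ≤ (lb w).2 ∧ (lb w).2 ≤ n) ∧
      ([] ∈ G (vlOf lb) (fun _ => ∅) ↔ [] ∈ (TA lb).val lE n) := by
  obtain ⟨Q, A, h1, h2⟩ := hG
  have hb : (binA false false).Bd n := binA_bd (by omega) _ _
  let C := (binA false false).comp (fun _ => A)
  have hC : C.Bd n := Aut.comp_bd (by omega) hb (fun _ => h1)
  have hst : C.k C.st = .node false 1 false (fun b => Sum.inl (some b)) := rfl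
  refine ⟨lb C, lb_bd C hn hC hst, ?_⟩
  rw [← diag_aut C hn hC hst]
  rw [Aut.comp_F (by omega) hb (fun _ => h1), h2]
  have h3 : ∀ (vl ρ : ℕ → Set T) (v : T) (b : Bool),
      (v, some b) ∈ ((binA false false).arena vl ρ).val lE n ↔ v ∈ ρ (if b then 0 else 1) := by
    intro vl ρ v b
    rw [Aut.mem_val hb]
    exact Iff.rfl
  change _ ↔ (([] : T), none) ∈ ((binA false false).arena _ _).val lE n
  rw [Aut.mem_val hb]
  change _ ↔ ∀ b, (([] : T), some b) ∈ ((binA false false).arena _ _).val lE n
  simp only [h3, forall_const]

end Q206.Mu
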