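import Pool.Agent.Q206.Mu.Cert

/-!
# No interpolant in any level
-/

namespace Q206.Mu

open Set

def Fm.neg : Fm → Fm
  | .top => .bot
  | .bot => .top
  | .lit a b => .lit a (!b)
  | .var x => .var x
  | .and φ ψ => .or φ.neg ψ.neg
  | .or φ ψ => .and φ.neg ψ.neg
  | .dia φ => .box φ.neg
  | .box φ => .dia φ.neg
  | .mu x φ => .nu x φ.neg
  | .nu x φ => .mu x φ.neg

theorem upd_compl {W : Type} (ρ : ℕ → Set W) (x : ℕ) (S : Set W) :
    (fun y => (Function.update ρ x S y)ᶜ) = Function.update (fun y => (ρ y)ᶜ) x Sᶜ := by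
  funext y
  by_cases hy : y = x
  · subst hy; simp
  · simp [hy]

theorem sem_neg {M : Model} (φ : Fm) : ∀ ρ : ℕ → Set M.W,
    φ.neg.sem M ρ = (φ.sem M (fun x => (ρ x)ᶜ))ᶜ := by
  induction φ with
  | top => intro ρ; exact compl_univ.symm
  | bot => intro ρ; exact compl_empty.symm
  | lit a b =>
    intro ρ
    cases b
    · exact (compl_compl _).symm
    · rfl
  | var x => intro ρ; exact (compl_compl _).symm
  | and φ ψ ih1 ih2 =>
    intro ρ
    change _ ∪ _ = (_ ∩ _)ᶜ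
    rw [ih1, ih2, compl_inter]
  | or φ ψ ih1 ih2 =>
    intro ρ
    change _ ∩ _ = (_ ∪ _)ᶜ
    rw [ih1, ih2, compl_union]
  | dia φ ih =>
    intro ρ
    ext w
    change (∀ v, M.R w v → v ∈ φ.neg.sem M ρ) ↔ ¬ ∃ v, M.R w v ∧ v ∈ φ.sem M _
    rw [ih]
    push Not
    exact Iff.rfl
  | box φ ih =>
    intro ρ
    ext w
    change (∃ v, M.R w v ∧ v ∈ φ.neg.sem M ρ) ↔ ¬ ∀ v, M.R w v → v ∈ φ.sem M _
    rw [ih]
    push Not
    exact Iff.rfl
  | mu x φ ih =>
    intro ρ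
    change (Fm.nu x φ.neg).sem M ρ = _
    rw [sem_nu, sem_mu, Arena.Lf_compl]
    congr 1
    funext S
    rw [ih, upd_compl]
  | nu x φ ih =>
    intro ρ
    change (Fm.mu x φ.neg).sem M ρ = _
    rw [sem_nu, sem_mu, Arena.Gf_compl]
    congr 1
    funext S
    rw [ih, upd_compl]

theorem fv_neg (φ : Fm) : φ.neg.fv = φ.fv := by
  induction φ with
  | top => rfl
  | bot => rfl
  | lit a b => rfl
  | var x => rfl
  | and φ ψ ih1 ih2 => change _ ∪ _ = _ ∪ _; rw [ih1, ih2]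
  | or φ ψ ih1 ih2 => change _ ∪ _ = _ ∪ _; rw [ih1, ih2]
  | dia φ ih => exact ih
  | box φ ih => exact ih
  | mu x φ ih => change _ \ _ = _ \ _; rw [ih]
  | nu x φ ih => change _ \ _ = _ \ _; rw [ih]

theorem letters_neg (φ : Fm) : φ.neg.letters = φ.letters := by
  induction φ with
  | top => rfl
  | bot => rfl
  | lit a b => rfl
  | var x => rfl
  | and φ ψ ih1 ih2 => change _ ∪ _ = _ ∪ _; rw [ih1, ih2]
  | or φ ψ ih1 ih2 => change _ ∪ _ = _ ∪ _; rw [ih1, ih2]
  | dia φ ih => exact ih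
  | box φ ih => exact ih
  | mu x φ ih => exact ih
  | nu x φ ih => exact ih

theorem fixFree_neg (φ : Fm) (h : φ.FixFree) : φ.neg.FixFree := by
  induction φ with
  | top => trivial
  | bot => trivial
  | lit a b => trivial
  | var x => trivial
  | and φ ψ ih1 ih2 => exact ⟨ih1 h.1, ih2 h.2⟩
  | or φ ψ ih1 ih2 => exact ⟨ih1 h.1, ih2 h.2⟩
  | dia φ ih => exact ih h
  | box φ ih => exact ih h
  | mu x φ ih => exact h.elim
  | nu x φ ih => exact h.elim

theorem subst_neg (φ : Fm) (x : ℕ) (ψ : Fm) : (φ.subst x ψ).neg = φ.neg.subst x ψ.neg := by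
  induction φ with
  | top => rfl
  | bot => rfl
  | lit a b => rfl
  | var y =>
    change (if y = x then ψ else Fm.var y).neg = if y = x then ψ.neg else Fm.var y
    split_ifs <;> rfl
  | and φ χ ih1 ih2 => change Fm.or _ _ = Fm.or _ _; rw [ih1, ih2]
  | or φ χ ih1 ih2 => change Fm.and _ _ = Fm.and _ _; rw [ih1, ih2]
  | dia φ ih => change Fm.box _ = Fm.box _; rw [ih]
  | box φ ih => change Fm.dia _ = Fm.dia _; rw [ih]
  | mu y φ ih =>
    change (if y = x then Fm.mu y φ else Fm.mu y (φ.subst x ψ)).neg =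
      if y = x then Fm.nu y φ.neg else Fm.nu y (φ.neg.subst x ψ.neg)
    split_ifs
    · rfl
    · change Fm.nu _ _ = Fm.nu _ _; rw [ih]
  | nu y φ ih =>
    change (if y = x then Fm.nu y φ else Fm.nu y (φ.subst x ψ)).neg =
      if y = x then Fm.mu y φ.neg else Fm.mu y (φ.neg.subst x ψ.neg)
    split_ifs
    · rfl
    · change Fm.mu _ _ = Fm.mu _ _; rw [ih]

theorem noCapture_neg (φ : Fm) (x : ℕ) (ψ : Fm) (h : φ.NoCapture x ψ) :
    φ.neg.NoCapture x ψ.neg := by
  induction φ with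
  | top => trivial
  | bot => trivial
  | lit a b => trivial
  | var y => trivial
  | and φ χ ih1 ih2 => exact ⟨ih1 h.1, ih2 h.2⟩
  | or φ χ ih1 ih2 => exact ⟨ih1 h.1, ih2 h.2⟩
  | dia φ ih => exact ih h
  | box φ ih => exact ih h
  | mu y φ ih =>
    change y = x ∨ x ∉ φ.fv ∨ (y ∉ ψ.fv ∧ φ.NoCapture x ψ) at h
    change y = x ∨ x ∉ φ.neg.fv ∨ (y ∉ ψ.neg.fv ∧ φ.neg.NoCapture x ψ.neg)
    rw [fv_neg, fv_neg]
    rcases h with h | h | h
    · exact Or.inl h
    · exact Or.inr (Or.inl h)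
    · exact Or.inr (Or.inr ⟨h.1, ih h.2⟩)
  | nu y φ ih =>
    change y = x ∨ x ∉ φ.fv ∨ (y ∉ ψ.fv ∧ φ.NoCapture x ψ) at h
    change y = x ∨ x ∉ φ.neg.fv ∨ (y ∉ ψ.neg.fv ∧ φ.neg.NoCapture x ψ.neg)
    rw [fv_neg, fv_neg]
    rcases h with h | h | h
    · exact Or.inl h
    · exact Or.inr (Or.inl h)
    · exact Or.inr (Or.inr ⟨h.1, ih h.2⟩)

theorem clo_neg {b : Bool} {B B' : Set Fm} (hB : ∀ φ ∈ B, φ.neg ∈ B') {φ : Fm}
    (h : Clo b B φ) : Clo (!b) B' φ.neg := by
  induction h with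
  | base h => exact .base (hB _ h)
  | and _ _ ih1 ih2 => exact .or ih1 ih2
  | or _ _ ih1 ih2 => exact .and ih1 ih2
  | dia _ ih => exact .box ih
  | box _ ih => exact .dia ih
  | mu h _ ih => exact .nu (by rw [h]; rfl) ih
  | nu h _ ih => exact .mu (by rw [h]; rfl) ih
  | subst _ _ hc ih1 ih2 =>
    rw [subst_neg]
    exact .subst ih1 ih2 (noCapture_neg _ _ _ hc)

theorem level_neg (n : ℕ) : ∀ (b : Bool) (φ : Fm), φ ∈ Level n b → φ.neg ∈ Level n (!b) := by
  induction n with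
  | zero => exact fun b φ h => fixFree_neg φ h
  | succ n ih =>
    intro b φ h
    refine clo_neg ?_ h
    rintro χ (hχ | hχ)
    · exact Or.inr (ih _ _ hχ)
    · exact Or.inl (ih _ _ hχ)

theorem level_succ {n : ℕ} {b : Bool} {φ : Fm} (b' : Bool) (h : φ ∈ Level n b) :
    φ ∈ Level (n + 1) b' := by
  apply Clo.base
  cases b
  · exact Or.inr h
  · exact Or.inl h

theorem level_le {n m : ℕ} (h : n < m) {b : Bool} {φ : Fm} (b' : Bool) (hφ : φ ∈ Level n b) :
    φ ∈ Level m b' := by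
  induction m, h using Nat.le_induction generalizing b' with
  | base => exact level_succ b' hφ
  | succ m _ ih => exact level_succ b' (ih true)

theorem lev1 {b : Bool} {φ : Fm} (h : φ.FixFree) : φ ∈ Level 1 b := .base (Or.inl h)

theorem fixFree_orL {L : List Fm} (h : ∀ φ ∈ L, φ.FixFree) : (orL L).FixFree := by
  induction L with
  | nil => trivial
  | cons φ L ih => exact ⟨h φ (by simp), ih fun ψ hψ => h ψ (by simp [hψ])⟩

theorem fixFree_Bf (ow : Bool) (s : ℕ) (φ : Fm) (h : φ.FixFree) : (Bf ow s φ).FixFree :=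
  ⟨⟨trivial, trivial, h⟩, trivial, h⟩

theorem fixFree_bodF (m k : ℕ) (ow : Bool) (s : ℕ) : (bodF m k ow s).FixFree := by
  refine ⟨?_, ⟨?_, fixFree_Bf _ _ _ trivial⟩, ?_, fixFree_Bf _ _ _ trivial⟩
  · apply fixFree_orL
    intro φ hφ
    obtain ⟨j, -, rfl⟩ := List.mem_map.1 hφ
    trivial
  · unfold gT; split_ifs <;> trivial
  · unfold gF; split_ifs <;> trivial

theorem al_level (m k : ℕ) (ow : Bool) (s : ℕ) : al m k ow s ∈ Level 2 true := by
  refine .mu rfl (.base (Or.inr ?_))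
  exact .nu rfl (lev1 (b := false) (fixFree_bodF m k ow s))

theorem top_level (n : ℕ) (b : Bool) : Fm.top ∈ Level (n + 1) b :=
  level_le (Nat.succ_pos n) (b := true) b (show Fm.FixFree .top from trivial)

theorem alA_level (l : ℕ → Bool) (m : ℕ) (ow : Bool) (s : ℕ) :
    alA l m ow s ∈ Level 2 true := by
  unfold alA
  induction bads l m with
  | nil => exact top_level 1 true
  | cons k L ih => exact .and (al_level m k ow s) ih

theorem fv_orL {L : List Fm} (h : ∀ φ ∈ L, φ.fv = ∅) : (orL L).fv = ∅ := by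
  induction L with
  | nil => rfl
  | cons φ L ih =>
    change φ.fv ∪ (orL L).fv = ∅
    rw [h φ (by simp), ih fun ψ hψ => h ψ (by simp [hψ]), union_self]

theorem fv_andL {L : List Fm} (h : ∀ φ ∈ L, φ.fv = ∅) : (andL L).fv = ∅ := by
  induction L with
  | nil => rfl
  | cons φ L ih =>
    change φ.fv ∪ (andL L).fv = ∅
    rw [h φ (by simp), ih fun ψ hψ => h ψ (by simp [hψ]), union_self]

theorem fv_Bf (ow : Bool) (s : ℕ) (φ : Fm) : (Bf ow s φ).fv = φ.fv := by
  change (∅ ∪ (∅ ∪ φ.fv)) ∪ (∅ ∪ φ.fv) = φ.fv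
  simp

theorem fv_hi (m k : ℕ) : (hi m k).fv = ∅ := by
  apply fv_orL
  intro φ hφ
  obtain ⟨j, -, rfl⟩ := List.mem_map.1 hφ
  rfl

theorem fv_al (m k : ℕ) (ow : Bool) (s : ℕ) : (al m k ow s).fv = ∅ := by
  have h1 : (gT k).fv = ∅ := by unfold gT; split_ifs <;> rfl
  have h2 : (gF k).fv = ∅ := by unfold gF; split_ifs <;> rfl
  change (((hi m k).fv ∪ (((gT k).fv ∪ (Bf ow s (.var 1)).fv) ∪
    ((gF k).fv ∪ (Bf ow s (.var 2)).fv))) \ {2}) \ {1} = ∅
  rw [fv_hi, h1, h2, fv_Bf, fv_Bf]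
  change ((∅ ∪ ((∅ ∪ {1}) ∪ (∅ ∪ {2}))) \ {2}) \ {1} = (∅ : Set ℕ)
  ext x
  simp only [mem_sdiff, mem_union, mem_empty_iff_false, mem_singleton_iff, false_or, iff_false]
  tauto

theorem fv_alA (l : ℕ → Bool) (m : ℕ) (ow : Bool) (s : ℕ) : (alA l m ow s).fv = ∅ := by
  apply fv_andL
  intro φ hφ
  obtain ⟨k, -, rfl⟩ := List.mem_map.1 hφ
  exact fv_al m k ow s

theorem fv_cert (l : ℕ → Bool) (m : ℕ) (ow : Bool) (s : ℕ) : (cert l m ow s).fv = ∅ := by
  change (((∅ ∪ ∅) ∪ (Bf ow s (.var 0)).fv) ∪ (alA l m ow s).fv) \ {0} = ∅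
  rw [fv_alA, fv_Bf]
  change (((∅ ∪ ∅) ∪ {0}) ∪ ∅) \ {0} = (∅ : Set ℕ)
  ext x
  simp

theorem cert_level (l : ℕ → Bool) (m : ℕ) (ow : Bool) (s : ℕ) :
    cert l m ow s ∈ Level 2 true := by
  have h1 : Fm.nu 0 (.and (.and (consF ow s) (Bf ow s (.var 0))) (.var 3)) ∈ Level 1 false := by
    refine .nu rfl (lev1 (b := false) ?_)
    exact ⟨⟨⟨trivial, trivial⟩, fixFree_Bf _ _ _ trivial⟩, trivial⟩
  have h2 := level_succ true h1
  have h3 := Clo.subst (x := 3) h2 (alA_level l m ow s) (by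
    refine Or.inr (Or.inr ⟨?_, ?_⟩)
    · rw [fv_alA]; exact fun h => h
    · exact ⟨⟨⟨trivial, trivial⟩, ⟨trivial, trivial, trivial⟩, trivial, trivial⟩, trivial⟩)
  exact h3

theorem letters_orL {L : List Fm} {S : Set ℕ} (h : ∀ φ ∈ L, φ.letters ⊆ S) :
    (orL L).letters ⊆ S := by
  induction L with
  | nil => exact empty_subset _
  | cons φ L ih => exact union_subset (h φ (by simp)) (ih fun ψ hψ => h ψ (by simp [hψ]))

theorem letters_andL {L : List Fm} {S : Set ℕ} (h : ∀ φ ∈ L, φ.letters ⊆ S) :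
    (andL L).letters ⊆ S := by
  induction L with
  | nil => exact empty_subset _
  | cons φ L ih => exact union_subset (h φ (by simp)) (ih fun ψ hψ => h ψ (by simp [hψ]))

theorem letters_Bf (ow : Bool) (s : ℕ) (φ : Fm) :
    (Bf ow s φ).letters = (({0} ∪ ({s} ∪ φ.letters)) ∪ ({0} ∪ φ.letters)) := rfl

theorem letters_cert (l : ℕ → Bool) (m : ℕ) (ow : Bool) (s : ℕ) :
    (cert l m ow s).letters ⊆ {a | a = 0 ∨ a = s ∨ 5 ≤ a} := by
  have hB : ∀ x, (Bf ow s (.var x)).letters ⊆ {a | a = 0 ∨ a = s ∨ 5 ≤ a} := by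
    intro x a ha
    rw [letters_Bf] at ha
    rcases ha with (h | h | h) | h | h
    · exact Or.inl h
    · exact Or.inr (Or.inl h)
    · exact h.elim
    · exact Or.inl h
    · exact h.elim
  refine union_subset (union_subset ?_ (hB 0)) ?_
  · rintro a (h | h)
    · exact Or.inl h
    · exact Or.inr (Or.inl h)
  · apply letters_andL
    intro φ hφ
    obtain ⟨k, hk, rfl⟩ := List.mem_map.1 hφ
    rw [mem_bads] at hk
    refine union_subset ?_ (union_subset (union_subset ?_ (hB 1)) (union_subset ?_ (hB 2)))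
    · apply letters_orL
      intro ψ hψ
      obtain ⟨j, hj, rfl⟩ := List.mem_map.1 hψ
      rw [List.mem_filter, decide_eq_true_iff] at hj
      intro a ha
      have ha : a = j + 3 := ha
      exact Or.inr (Or.inr (by omega))
    · unfold gT
      split_ifs with h
      · exact empty_subset _
      · intro a ha
        have ha : a = k + 3 := ha
        exact Or.inr (Or.inr (by omega))
    · unfold gF
      split_ifs with h
      · exact empty_subset _
      · intro a ha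
        have ha : a = k + 3 := ha
        exact Or.inr (Or.inr (by omega))

/-- the formula saying that a marked strategy wins for the opponent -/
def phiF (m : ℕ) : Fm := cert (fun j => !(lE j)) m false 1

/-- the negation of the formula saying that a marked strategy wins for the first player -/
def psiF (m : ℕ) : Fm := (cert lE m true 2).neg

theorem phi_psi {m : ℕ} (hm : 1 ≤ m) : Entails (phiF m) (psiF m) := by
  intro M ρ w hw
  unfold psiF
  rw [sem_neg]
  intro hw'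
  exact cert_disjoint lE m _ _ w hw' hw hm

theorem TO_dual (lb : T → Bool × ℕ) : (TO lb true).dual = TO lb false := by
  unfold TO Arena.dual
  congr 1
  funext w
  change Lab.node (!((lb w).1 == true)) (lb w).2 = Lab.node ((lb w).1 == false) (lb w).2
  congr 1
  cases (lb w).1 <;> rfl

theorem TA_eq (lb : T → Bool × ℕ) : TO lb true = TA lb := by
  unfold TO TA
  congr 1
  funext w
  cases (lb w).1 <;> rfl

theorem no_interpolant {N : ℕ} {b : Bool} {χ : Fm} (hχ : χ ∈ Level N b) (h1 : 1 ∉ χ.letters)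
    (h2 : 2 ∉ χ.letters) (hφ : Entails (phiF (N + 2)) χ) (hψ : Entails χ (psiF (N + 2))) :
    False := by
  have hrep : Rep (N + 2) (trS χ) := rep_level N b χ hχ (N + 2) (by omega) (Or.inl (by omega))
  obtain ⟨lb, hlb, hd⟩ := diag (by omega) hrep
  have hbd : (TO lb true).Bd (N + 2) := by
    intro w o c h
    cases h
    exact hlb w
  have hlet : ∀ s, (s = 1 ∨ s = 2) → ∀ S : Set T,
      χ.sem (treeModel (Function.update (vlOf lb) s S)) (fun _ => ∅) =
        χ.sem (treeModel (vlOf lb)) (fun _ => ∅) := by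
    intro s hs S
    apply sem_letters
    intro a ha
    rw [Function.update_of_ne]
    rintro rfl
    rcases hs with rfl | rfl
    · exact h1 ha
    · exact h2 ha
  by_cases hc : ([] : T) ∈ χ.sem (treeModel (vlOf lb)) (fun _ => ∅)
  · have hw : ([] : T) ∈ (TO lb true).val lE (N + 2) := by
      rw [TA_eq]
      exact hd.1 hc
    obtain ⟨S, hS⟩ := cert_true hlb lE true 2 (Or.inr rfl) hw
    have h3 := hψ (treeModel (Function.update (vlOf lb) 2 S)) (fun _ => ∅)
      (by rw [hlet 2 (Or.inr rfl) S]; exact hc)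
    unfold psiF at h3
    rw [sem_neg] at h3
    exact h3 (hS _)
  · have hw : ([] : T) ∈ (TO lb false).val (fun j => !(lE j)) (N + 2) := by
      rw [← TO_dual, ← Arena.val_compl _ hbd, TA_eq]
      exact fun h => hc (hd.2 h)
    obtain ⟨S, hS⟩ := cert_true hlb (fun j => !(lE j)) false 1 (Or.inl rfl) hw
    have h3 := hφ (treeModel (Function.update (vlOf lb) 1 S)) (fun _ => ∅) (hS _)
    rw [hlet 1 (Or.inl rfl) S] at h3
    exact hc h3

theorem fv_phi (m : ℕ) : (phiF m).fv = ∅ := fv_cert _ _ _ _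
theorem fv_psi (m : ℕ) : (psiF m).fv = ∅ := by
  unfold psiF; rw [fv_neg]; exact fv_cert _ _ _ _

theorem phi_level (m : ℕ) : phiF m ∈ Sig 2 := cert_level _ _ _ _
theorem psi_level (m : ℕ) : psiF m ∈ Pi 2 := level_neg 2 true _ (cert_level _ _ _ _)

theorem common {m : ℕ} {S : Set ℕ} (h : S ⊆ (phiF m).letters ∩ (psiF m).letters) :
    1 ∉ S ∧ 2 ∉ S := by
  constructor
  · intro h1
    have h2 := (h h1).2
    unfold psiF at h2
    rw [letters_neg] at h2
    have := letters_cert _ _ _ _ h2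
    rcases this with h | h | h <;> omega
  · intro h1
    have h2 := (h h1).1
    have := letters_cert _ _ _ _ h2
    rcases this with h | h | h <;> omega

theorem main (N : ℕ) : ∃ φ ∈ Sig 2, ∃ ψ ∈ Pi 2, φ.fv = ∅ ∧ ψ.fv = ∅ ∧ Entails φ ψ ∧
    ∀ χ ∈ Sig N ∪ Pi N, χ.letters ⊆ φ.letters ∩ ψ.letters →
      ¬ (Entails φ χ ∧ Entails χ ψ) := by
  refine ⟨phiF (N + 2), phi_level _, psiF (N + 2), psi_level _, fv_phi _, fv_psi _,
    phi_psi (by omega), ?_⟩
  rintro χ hχ hl ⟨h1, h2⟩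
  obtain ⟨h3, h4⟩ := common hl
  rcases hχ with hχ | hχ
  · exact no_interpolant hχ h3 h4 h1 h2
  · exact no_interpolant hχ h3 h4 h1 h2

theorem not_craig (n : ℕ) (hn : 3 ≤ n) (b : Bool) : ¬ CraigInterpolation (Level n b) := by
  intro h
  obtain ⟨φ, hφ, ψ, hψ, f1, f2, he, hno⟩ := main n
  obtain ⟨χ, hχ, -, hl, h1, h2⟩ := h φ ψ (level_le (by omega) b hφ) (level_le (by omega) b hψ)
    f1 f2 he
  refine hno χ ?_ hl ⟨h1, h2⟩
  cases b
  · exact Or.inr hχ
  · exact Or.inl hχ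

end Q206.Mu
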