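import Pool.Agent.Q206.Mu.Arena

/-!
# Basic facts about the semantics
-/

namespace Q206.Mu

open Set

variable {M : Model}

theorem sem_mu (x : ℕ) (φ : Fm) (ρ : ℕ → Set M.W) :
    (Fm.mu x φ).sem M ρ = Lf (fun S => φ.sem M (Function.update ρ x S)) := rfl

theorem sem_nu (x : ℕ) (φ : Fm) (ρ : ℕ → Set M.W) :
    (Fm.nu x φ).sem M ρ = Gf (fun S => φ.sem M (Function.update ρ x S)) := rfl

theorem updm {X Y : ℕ → Set M.W} (h : ∀ c, X c ⊆ Y c) (k : ℕ) {S S' : Set M.W} (hS : S ⊆ S')
    (c : ℕ) : Function.update X k S c ⊆ Function.update Y k S' c := by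
  by_cases hc : c = k
  · subst hc; simpa using hS
  · simpa [hc] using h c

theorem sem_mono (φ : Fm) : ∀ {ρ ρ' : ℕ → Set M.W}, (∀ x, ρ x ⊆ ρ' x) →
    φ.sem M ρ ⊆ φ.sem M ρ' := by
  induction φ with
  | top => exact fun _ => le_rfl
  | bot => exact fun _ => le_rfl
  | lit a b => intro _ _ _; cases b <;> exact le_rfl
  | var x => exact fun h => h x
  | and φ ψ ih1 ih2 => exact fun h => inter_subset_inter (ih1 h) (ih2 h)
  | or φ ψ ih1 ih2 => exact fun h => union_subset_union (ih1 h) (ih2 h)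
  | dia φ ih =>
    rintro _ _ h w ⟨v, h1, h2⟩
    exact ⟨v, h1, ih h h2⟩
  | box φ ih =>
    intro _ _ h w hw v hv
    exact ih h (hw v hv)
  | mu x φ ih =>
    intro ρ ρ' h
    rw [sem_mu, sem_mu]
    exact Fx_mono (b := true) fun S => ih (updm h x le_rfl)
  | nu x φ ih =>
    intro ρ ρ' h
    rw [sem_nu, sem_nu]
    exact Fx_mono (b := false) fun S => ih (updm h x le_rfl)

theorem sem_mono' (φ : Fm) (ρ : ℕ → Set M.W) (x : ℕ) :
    Monotone (fun S => φ.sem M (Function.update ρ x S)) :=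
  fun _ _ h => sem_mono φ (updm (fun _ => le_rfl) x h)

/-- Coincidence lemma for variables. -/
theorem sem_congr (φ : Fm) : ∀ {ρ ρ' : ℕ → Set M.W}, (∀ x ∈ φ.fv, ρ x = ρ' x) →
    φ.sem M ρ = φ.sem M ρ' := by
  induction φ with
  | top => exact fun _ => rfl
  | bot => exact fun _ => rfl
  | lit a b => intro _ _ _; cases b <;> rfl
  | var x => exact fun h => h x rfl
  | and φ ψ ih1 ih2 =>
    intro ρ ρ' h
    change _ ∩ _ = _ ∩ _
    rw [ih1 fun x hx => h x (Or.inl hx), ih2 fun x hx => h x (Or.inr hx)]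
  | or φ ψ ih1 ih2 =>
    intro ρ ρ' h
    change _ ∪ _ = _ ∪ _
    rw [ih1 fun x hx => h x (Or.inl hx), ih2 fun x hx => h x (Or.inr hx)]
  | dia φ ih =>
    intro ρ ρ' h
    change {w | _} = {w | _}
    rw [ih h]
  | box φ ih =>
    intro ρ ρ' h
    change {w | _} = {w | _}
    rw [ih h]
  | mu x φ ih =>
    intro ρ ρ' h
    rw [sem_mu, sem_mu]
    congr 1
    funext S
    apply ih
    intro y hy
    by_cases hyx : y = x
    · subst hyx; simp
    · simp only [Function.update_of_ne hyx]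
      exact h y ⟨hy, hyx⟩
  | nu x φ ih =>
    intro ρ ρ' h
    rw [sem_nu, sem_nu]
    congr 1
    funext S
    apply ih
    intro y hy
    by_cases hyx : y = x
    · subst hyx; simp
    · simp only [Function.update_of_ne hyx]
      exact h y ⟨hy, hyx⟩

/-- Coincidence lemma for letters. -/
theorem sem_letters {W : Type} {R : W → W → Prop} (φ : Fm) : ∀ {V V' : ℕ → Set W}
    {ρ : ℕ → Set W}, (∀ a ∈ φ.letters, V a = V' a) →
    φ.sem ⟨W, R, V⟩ ρ = φ.sem ⟨W, R, V'⟩ ρ := by
  induction φ with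
  | top => exact fun _ => rfl
  | bot => exact fun _ => rfl
  | lit a b =>
    intro V V' ρ h
    have := h a rfl
    cases b
    · change (V a)ᶜ = (V' a)ᶜ
      rw [this]
    · exact this
  | var x => exact fun h => rfl
  | and φ ψ ih1 ih2 =>
    intro V V' ρ h
    change _ ∩ _ = _ ∩ _
    rw [ih1 fun x hx => h x (Or.inl hx), ih2 fun x hx => h x (Or.inr hx)]
  | or φ ψ ih1 ih2 =>
    intro V V' ρ h
    change _ ∪ _ = _ ∪ _
    rw [ih1 fun x hx => h x (Or.inl hx), ih2 fun x hx => h x (Or.inr hx)]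
  | dia φ ih =>
    intro V V' ρ h
    change {w | _} = {w | _}
    rw [ih h]
  | box φ ih =>
    intro V V' ρ h
    change {w | _} = {w | _}
    rw [ih h]
  | mu x φ ih =>
    intro V V' ρ h
    rw [sem_mu, sem_mu]
    congr 1
    funext S
    exact ih h
  | nu x φ ih =>
    intro V V' ρ h
    rw [sem_nu, sem_nu]
    congr 1
    funext S
    exact ih h

theorem subst_of_notMem (φ : Fm) (x : ℕ) (ψ : Fm) (h : x ∉ φ.fv) (ρ : ℕ → Set M.W) :
    (φ.subst x ψ).sem M ρ = φ.sem M ρ := by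
  induction φ generalizing ρ with
  | top => rfl
  | bot => rfl
  | lit a b => rfl
  | var y =>
    have : y ≠ x := fun e => h (by rw [e]; rfl)
    simp [Fm.subst, this]
  | and φ ψ ih1 ih2 =>
    change _ ∩ _ = _ ∩ _
    rw [ih1 fun hx => h (Or.inl hx), ih2 fun hx => h (Or.inr hx)]
  | or φ ψ ih1 ih2 =>
    change _ ∪ _ = _ ∪ _
    rw [ih1 fun hx => h (Or.inl hx), ih2 fun hx => h (Or.inr hx)]
  | dia φ ih =>
    change {w | _} = {w | _}
    rw [ih h]
  | box φ ih =>
    change {w | _} = {w | _}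
    rw [ih h]
  | mu y φ ih =>
    change (if y = x then Fm.mu y φ else Fm.mu y (φ.subst x ψ)).sem M ρ = _
    split_ifs with hyx
    · rfl
    · rw [sem_mu, sem_mu]
      congr 1
      funext S
      exact ih (fun hx => h ⟨hx, fun e => hyx e.symm⟩) _
  | nu y φ ih =>
    change (if y = x then Fm.nu y φ else Fm.nu y (φ.subst x ψ)).sem M ρ = _
    split_ifs with hyx
    · rfl
    · rw [sem_nu, sem_nu]
      congr 1
      funext S
      exact ih (fun hx => h ⟨hx, fun e => hyx e.symm⟩) _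

theorem upd_irrel (φ : Fm) (x : ℕ) (h : x ∉ φ.fv) (ρ : ℕ → Set M.W) (S : Set M.W) :
    φ.sem M (Function.update ρ x S) = φ.sem M ρ := by
  apply sem_congr
  intro y hy
  rw [Function.update_of_ne]
  rintro rfl
  exact h hy

theorem sem_subst (φ : Fm) (x : ℕ) (ψ : Fm) (h : φ.NoCapture x ψ) (ρ : ℕ → Set M.W) :
    (φ.subst x ψ).sem M ρ = φ.sem M (Function.update ρ x (ψ.sem M ρ)) := by
  induction φ generalizing ρ with
  | top => rfl
  | bot => rfl
  | lit a b => cases b <;> rfl
  | var y =>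
    change (if y = x then ψ else Fm.var y).sem M ρ = Function.update ρ x (ψ.sem M ρ) y
    split_ifs with hyx
    · subst hyx; simp
    · simp only [Function.update_of_ne hyx]; rfl
  | and φ ψ ih1 ih2 =>
    change _ ∩ _ = _ ∩ _
    rw [ih1 h.1, ih2 h.2]
  | or φ ψ ih1 ih2 =>
    change _ ∪ _ = _ ∪ _
    rw [ih1 h.1, ih2 h.2]
  | dia φ ih =>
    change {w | _} = {w | _}
    rw [ih h]
  | box φ ih =>
    change {w | _} = {w | _}
    rw [ih h]
  | mu y φ ih =>
    change y = x ∨ x ∉ φ.fv ∨ (y ∉ ψ.fv ∧ φ.NoCapture x ψ) at h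
    by_cases hyx : y = x
    · subst hyx
      change (if y = y then Fm.mu y φ else Fm.mu y (φ.subst y ψ)).sem M ρ = _
      rw [if_pos rfl]
      exact (upd_irrel (Fm.mu y φ) y (fun hx => hx.2 rfl) ρ _).symm
    · rcases h with h | h | h
      · exact absurd h hyx
      · have h' : x ∉ (Fm.mu y φ).fv := fun hx => h hx.1
        rw [subst_of_notMem _ _ _ h', upd_irrel _ _ h']
      · change (if y = x then Fm.mu y φ else Fm.mu y (φ.subst x ψ)).sem M ρ = _
        rw [if_neg hyx, sem_mu, sem_mu]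
        congr 1
        funext S
        rw [ih h.2, upd_irrel ψ y h.1, Function.update_comm hyx]
  | nu y φ ih =>
    change y = x ∨ x ∉ φ.fv ∨ (y ∉ ψ.fv ∧ φ.NoCapture x ψ) at h
    by_cases hyx : y = x
    · subst hyx
      change (if y = y then Fm.nu y φ else Fm.nu y (φ.subst y ψ)).sem M ρ = _
      rw [if_pos rfl]
      exact (upd_irrel (Fm.nu y φ) y (fun hx => hx.2 rfl) ρ _).symm
    · rcases h with h | h | h
      · exact absurd h hyx
      · have h' : x ∉ (Fm.nu y φ).fv := fun hx => h hx.1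
        rw [subst_of_notMem _ _ _ h', upd_irrel _ _ h']
      · change (if y = x then Fm.nu y φ else Fm.nu y (φ.subst x ψ)).sem M ρ = _
        rw [if_neg hyx, sem_nu, sem_nu]
        congr 1
        funext S
        rw [ih h.2, upd_irrel ψ y h.1, Function.update_comm hyx]

end Q206.Mu
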