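import Pool.Agent.Q206.Mu.Aut
import Pool.Agent.Q206.Mu.Sem

/-!
# Every formula of the alternation hierarchy is given by an automaton on the binary tree
-/

namespace Q206.Mu

open Set

/-- the full binary tree with a valuation; the two successors of `u` are `true :: u` and
`false :: u` -/
def treeModel (vl : ℕ → Set T) : Model := ⟨T, fun u v => ∃ b : Bool, v = b :: u, vl⟩

def Rep (n : ℕ) (G : (ℕ → Set T) → (ℕ → Set T) → Set T) : Prop :=
  ∃ (Q : Type) (A : Aut Q), A.Bd n ∧ ∀ vl ρ, G vl ρ = A.F n vl ρ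

theorem Rep.up {n m : ℕ} (h : n ≤ m) {G : (ℕ → Set T) → (ℕ → Set T) → Set T}
    (hG : Rep n G) : Rep m G := by
  obtain ⟨Q, A, h1, h2⟩ := hG
  refine ⟨Q, A, fun q o c m' nx hq => ⟨(h1 q o c m' nx hq).1, (h1 q o c m' nx hq).2.trans h⟩, ?_⟩
  intro vl ρ
  rw [h2]
  ext u
  change (u, A.st) ∈ (A.arena vl ρ).N lE n _ ↔ (u, A.st) ∈ (A.arena vl ρ).N lE m _
  rw [(A.arena vl ρ).N_up (Aut.bd_arena h1 vl ρ) lE h]

theorem Rep.comp {n : ℕ} (hn : 1 ≤ n) {G : (ℕ → Set T) → (ℕ → Set T) → Set T}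
    {H : ℕ → (ℕ → Set T) → (ℕ → Set T) → Set T} (hG : Rep n G) (hH : ∀ x, Rep n (H x)) :
    Rep n (fun vl ρ => G vl (fun x => H x vl ρ)) := by
  obtain ⟨Q, A, h1, h2⟩ := hG
  choose Q' B h3 h4 using hH
  refine ⟨_, A.comp B, Aut.comp_bd hn h1 h3, fun vl ρ => ?_⟩
  rw [Aut.comp_F hn h1 h3]
  simp only [h2, h4]

theorem Rep.loop {n : ℕ} (hn : 1 ≤ n) {G : (ℕ → Set T) → (ℕ → Set T) → Set T} (hG : Rep n G)
    (x : ℕ) : Rep n (fun vl ρ => Fx (lE n) (fun S => G vl (Function.update ρ x S))) := by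
  obtain ⟨Q, A, h1, h2⟩ := hG
  refine ⟨_, A.loop x n, Aut.loop_bd hn h1, fun vl ρ => ?_⟩
  rw [Aut.loop_F hn h1]
  simp only [h2]

def conA (b : Bool) : Aut Unit := ⟨(), fun _ => .con b⟩
def litA (a : ℕ) (b : Bool) : Aut Unit := ⟨(), fun _ => .lit a b⟩
def varA (x : ℕ) : Aut Unit := ⟨(), fun _ => .var x⟩
def binA (o m : Bool) : Aut (Option Bool) :=
  ⟨none, fun q => match q with
    | none => .node o 1 m some
    | some b => .var (if b then 0 else 1)⟩

theorem rep_con (n : ℕ) (b : Bool) : Rep n (fun _ _ => if b then univ else ∅) := by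
  have hbd : (conA b).Bd n := by intro q o c m nx h; cases h
  refine ⟨_, conA b, hbd, fun vl ρ => ?_⟩
  ext u
  change _ ↔ (u, ()) ∈ ((conA b).arena vl ρ).val lE n
  rw [Aut.mem_val hbd]
  change _ ↔ b = true
  cases b <;> simp

theorem rep_lit (n : ℕ) (a : ℕ) (b : Bool) :
    Rep n (fun vl ρ => (Fm.lit a b).sem (treeModel vl) ρ) := by
  have hbd : (litA a b).Bd n := by intro q o c m nx h; cases h
  refine ⟨_, litA a b, hbd, fun vl ρ => ?_⟩
  refine Set.ext fun (u : T) => ?_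
  change u ∈ (Fm.lit a b).sem (treeModel vl) ρ ↔ (u, ()) ∈ ((litA a b).arena vl ρ).val lE n
  rw [Aut.mem_val hbd]
  change _ ↔ (u ∈ vl a ↔ b = true)
  cases b
  · change u ∈ (vl a)ᶜ ↔ _
    simp
  · change u ∈ vl a ↔ _
    simp

theorem rep_var (n : ℕ) (x : ℕ) : Rep n (fun _ ρ => ρ x) := by
  have hbd : (varA x).Bd n := by intro q o c m nx h; cases h
  refine ⟨_, varA x, hbd, fun vl ρ => ?_⟩
  ext u
  change _ ↔ (u, ()) ∈ ((varA x).arena vl ρ).val lE n
  rw [Aut.mem_val hbd]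
  exact Iff.rfl

theorem binA_bd {n : ℕ} (hn : 1 ≤ n) (o m : Bool) : (binA o m).Bd n := by
  intro q o' c m' nx h
  rcases q with _ | b
  · cases h; exact ⟨le_rfl, hn⟩
  · cases h

theorem rep_bin {n : ℕ} (hn : 1 ≤ n) (o m : Bool) : Rep n (fun _ ρ => {u | if o then
    (∃ b : Bool, (if m then b :: u else u) ∈ ρ (if b then 0 else 1)) else
    (∀ b : Bool, (if m then b :: u else u) ∈ ρ (if b then 0 else 1))}) := by
  refine ⟨_, binA o m, binA_bd hn o m, fun vl ρ => ?_⟩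
  have h1 : ∀ (v : T) (b : Bool), (v, some b) ∈ ((binA o m).arena vl ρ).val lE n ↔
      v ∈ ρ (if b then 0 else 1) := by
    intro v b
    rw [Aut.mem_val (binA_bd hn o m)]
    exact Iff.rfl
  ext u
  change _ ↔ (u, none) ∈ ((binA o m).arena vl ρ).val lE n
  rw [Aut.mem_val (binA_bd hn o m)]
  cases o
  · change _ ↔ ∀ b, (if m then b :: u else u, some b) ∈ ((binA false m).arena vl ρ).val lE n
    simp only [h1]
    exact Iff.rfl
  · change _ ↔ ∃ b, (if m then b :: u else u, some b) ∈ ((binA true m).arena vl ρ).val lE n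
    simp only [h1]
    exact Iff.rfl

/-- the interpretation of a formula on the tree -/
def trS (φ : Fm) (vl ρ : ℕ → Set T) : Set T := φ.sem (treeModel vl) ρ

theorem rep_and {n : ℕ} (hn : 1 ≤ n) {φ ψ : Fm} (h1 : Rep n (trS φ)) (h2 : Rep n (trS ψ)) :
    Rep n (trS (.and φ ψ)) := by
  have := (rep_bin hn false false).comp hn
    (H := fun x => if x = 0 then trS φ else trS ψ) (by intro x; split_ifs <;> assumption)
  obtain ⟨Q, A, h3, h4⟩ := this
  refine ⟨Q, A, h3, fun vl ρ => ?_⟩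
  rw [← h4]
  ext u
  change u ∈ φ.sem (treeModel vl) ρ ∧ u ∈ ψ.sem (treeModel vl) ρ ↔ _
  simp only [Bool.false_eq_true, if_false, Bool.forall_bool, if_true, one_ne_zero, mem_ofPred_eq]
  exact and_comm

theorem rep_or {n : ℕ} (hn : 1 ≤ n) {φ ψ : Fm} (h1 : Rep n (trS φ)) (h2 : Rep n (trS ψ)) :
    Rep n (trS (.or φ ψ)) := by
  have := (rep_bin hn true false).comp hn
    (H := fun x => if x = 0 then trS φ else trS ψ) (by intro x; split_ifs <;> assumption)
  obtain ⟨Q, A, h3, h4⟩ := this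
  refine ⟨Q, A, h3, fun vl ρ => ?_⟩
  rw [← h4]
  ext u
  change u ∈ φ.sem (treeModel vl) ρ ∨ u ∈ ψ.sem (treeModel vl) ρ ↔ _
  simp only [Bool.false_eq_true, if_false, Bool.exists_bool, if_true, one_ne_zero, mem_ofPred_eq]
  exact or_comm

theorem rep_dia {n : ℕ} (hn : 1 ≤ n) {φ : Fm} (h1 : Rep n (trS φ)) :
    Rep n (trS (.dia φ)) := by
  have := (rep_bin hn true true).comp hn (H := fun _ => trS φ) (fun _ => h1)
  obtain ⟨Q, A, h3, h4⟩ := this
  refine ⟨Q, A, h3, fun vl ρ => ?_⟩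
  rw [← h4]
  ext u
  change (∃ v, (∃ b : Bool, v = b :: u) ∧ v ∈ φ.sem (treeModel vl) ρ) ↔
    ∃ b : Bool, b :: u ∈ trS φ vl ρ
  constructor
  · rintro ⟨_, ⟨b, rfl⟩, h⟩
    exact ⟨b, h⟩
  · rintro ⟨b, h⟩
    exact ⟨_, ⟨b, rfl⟩, h⟩

theorem rep_box {n : ℕ} (hn : 1 ≤ n) {φ : Fm} (h1 : Rep n (trS φ)) :
    Rep n (trS (.box φ)) := by
  have := (rep_bin hn false true).comp hn (H := fun _ => trS φ) (fun _ => h1)
  obtain ⟨Q, A, h3, h4⟩ := this
  refine ⟨Q, A, h3, fun vl ρ => ?_⟩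
  rw [← h4]
  ext u
  change (∀ v, (∃ b : Bool, v = b :: u) → v ∈ φ.sem (treeModel vl) ρ) ↔
    ∀ b : Bool, b :: u ∈ trS φ vl ρ
  constructor
  · exact fun h b => h _ ⟨b, rfl⟩
  · rintro h _ ⟨b, rfl⟩
    exact h b

theorem rep_fixFree {n : ℕ} (hn : 1 ≤ n) (φ : Fm) (h : φ.FixFree) : Rep n (trS φ) := by
  induction φ with
  | top =>
    obtain ⟨Q, A, h3, h4⟩ := rep_con n true
    exact ⟨Q, A, h3, fun vl ρ => by rw [← h4]; rfl⟩
  | bot =>
    obtain ⟨Q, A, h3, h4⟩ := rep_con n false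
    exact ⟨Q, A, h3, fun vl ρ => by rw [← h4]; rfl⟩
  | lit a b => exact rep_lit n a b
  | var x => exact rep_var n x
  | and φ ψ ih1 ih2 => exact rep_and hn (ih1 h.1) (ih2 h.2)
  | or φ ψ ih1 ih2 => exact rep_or hn (ih1 h.1) (ih2 h.2)
  | dia φ ih => exact rep_dia hn (ih h)
  | box φ ih => exact rep_box hn (ih h)
  | mu x φ ih => exact h.elim
  | nu x φ ih => exact h.elim

theorem rep_subst {n : ℕ} (hn : 1 ≤ n) {φ ψ : Fm} {x : ℕ} (hc : φ.NoCapture x ψ)
    (h1 : Rep n (trS φ)) (h2 : Rep n (trS ψ)) : Rep n (trS (φ.subst x ψ)) := by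
  have := h1.comp hn (H := fun y => if y = x then trS ψ else fun _ ρ => ρ y) (by
    intro y
    split_ifs
    · exact h2
    · exact rep_var n y)
  obtain ⟨Q, A, h3, h4⟩ := this
  refine ⟨Q, A, h3, fun vl ρ => ?_⟩
  rw [← h4]
  change (φ.subst x ψ).sem (treeModel vl) ρ = φ.sem (treeModel vl) _
  rw [sem_subst φ x ψ hc]
  congr 1
  funext y
  by_cases hy : y = x
  · subst hy
    simp [trS]
  · simp [hy]

theorem rep_clo {n : ℕ} (hn : 1 ≤ n) {b : Bool} (hb : lE n = b) {B : Set Fm}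
    (hB : ∀ φ ∈ B, Rep n (trS φ)) {φ : Fm} (h : Clo b B φ) : Rep n (trS φ) := by
  induction h with
  | base h => exact hB _ h
  | and _ _ ih1 ih2 => exact rep_and hn ih1 ih2
  | or _ _ ih1 ih2 => exact rep_or hn ih1 ih2
  | dia _ ih => exact rep_dia hn ih
  | box _ ih => exact rep_box hn ih
  | subst _ _ hc ih1 ih2 => exact rep_subst hn hc ih1 ih2
  | @mu x φ h _ ih =>
    have := ih.loop hn x
    rw [hb, h] at this
    exact this
  | @nu x φ h _ ih =>
    have := ih.loop hn x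
    rw [hb, h] at this
    exact this

theorem rep_level (n : ℕ) : ∀ (b : Bool) (φ : Fm), φ ∈ Level n b → ∀ m, 1 ≤ m →
    (n + 1 ≤ m ∨ (n ≤ m ∧ lE m = b)) → Rep m (trS φ) := by
  induction n with
  | zero => exact fun b φ hφ m hm _ => rep_fixFree hm φ hφ
  | succ n ih =>
    intro b φ hφ m hm h
    have key : ∀ m, n + 1 ≤ m → lE m = b → Rep m (trS φ) := by
      intro m h1 h2
      refine rep_clo (by omega) h2 ?_ hφ
      rintro χ (hχ | hχ)
      · exact ih _ _ hχ m (by omega) (Or.inl h1)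
      · exact ih _ _ hχ m (by omega) (Or.inl h1)
    rcases h with h | h
    · by_cases hb : lE m = b
      · exact key m (by omega) hb
      · have hb' : lE (m - 1) = b := by
          unfold lE at hb ⊢
          cases b
          · simp only [decide_eq_false_iff_not] at hb ⊢
            omega
          · simp only [decide_eq_true_eq] at hb ⊢
            omega
        exact (key (m - 1) (by omega) hb').up (by omega)
    · exact key m h.1 h.2

end Q206.Mu
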